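import Mathlib

set_option autoImplicit false

namespace Pool.Agent.Work.MP_e23409_co

open Finset

/-- A good word of length `j`: colours from the lists, starts with the block `q` of length `K`,
has no square, and the initial factor of length five does not reoccur at a position `≥ K`. -/
structure Good (L : ℕ → Finset ℕ) (K : ℕ) (q : ℕ → ℕ) (j : ℕ) (f : ℕ → ℕ) : Prop where
  mem : ∀ k < j, f k ∈ L k
  zero : ∀ k, j ≤ k → f k = 0
  pre : ∀ k < K, f k = q k
  sf : ∀ s m, 1 ≤ m → s + 2 * m ≤ j → ¬ ∀ k < m, f (s + k) = f (s + m + k)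
  nop : ∀ p, K ≤ p → p + 5 ≤ j → ¬ ∀ k < 5, f (p + k) = f k

/-- The properties of the fixed initial block. -/
structure Block (L : ℕ → Finset ℕ) (K : ℕ) (q : ℕ → ℕ) : Prop where
  K3 : 3 ≤ K
  K8 : K ≤ 8
  qmem : ∀ k < K, q k ∈ L k
  qy : ∀ k, 1 ≤ k → k < K → q k ≠ q 0
  qsf : ∀ s m, 1 ≤ m → s + 2 * m ≤ K → ¬ ∀ k < m, q (s + k) = q (s + m + k)
  e1 : ∀ m, 1 ≤ m → m ≤ 3 → m < K → q (K - 1) ≠ q (K - 1 - m)
  e2 : ∀ m, 4 ≤ m → m + 2 ≤ K → q (K - 1) = q (K - 1 - m) → q (K - 2) ≠ q (K - 2 - m)

/-- truncation -/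
def tr (j : ℕ) (f : ℕ → ℕ) : ℕ → ℕ := fun k => if k < j then f k else 0

theorem tr_lt {j : ℕ} {f : ℕ → ℕ} {k : ℕ} (h : k < j) : tr j f k = f k := by
  simp [tr, h]

theorem tr_ge {j : ℕ} {f : ℕ → ℕ} {k : ℕ} (h : j ≤ k) : tr j f k = 0 := by
  simp [tr, Nat.not_lt.mpr h]

theorem tr_eq_iff {j : ℕ} {f g : ℕ → ℕ} (h : tr j f = tr j g) {k : ℕ} (hk : k < j) :
    f k = g k := by
  have := congrFun h k
  rwa [tr_lt hk, tr_lt hk] at this

variable {L : ℕ → Finset ℕ} {K : ℕ} {q : ℕ → ℕ}

theorem Good.tr {j : ℕ} {f : ℕ → ℕ} (h : Good L K q j f) {i : ℕ} (hK : K ≤ i) (hi : i ≤ j) :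
    Good L K q i (tr i f) where
  mem k hk := by rw [tr_lt hk]; exact h.mem k (by omega)
  zero k hk := tr_ge hk
  pre k hk := by rw [tr_lt (by omega)]; exact h.pre k hk
  sf s m hm hs hk := h.sf s m hm (by omega) (fun k hkm => by
    have := hk k hkm
    rwa [tr_lt (by omega), tr_lt (by omega)] at this)
  nop p hp hp5 hk := h.nop p hp (by omega) (fun k hk5 => by
    have := hk k hk5
    rwa [tr_lt (by omega), tr_lt (by omega)] at this)

theorem good_finite (L : ℕ → Finset ℕ) (K : ℕ) (q : ℕ → ℕ) (j : ℕ) :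
    {f | Good L K q j f}.Finite := by
  apply Set.Finite.of_injOn (f := fun (f : ℕ → ℕ) (i : Fin j) => f i)
    (t := ((Fintype.piFinset (fun i : Fin j => L i) : Finset (Fin j → ℕ)) : Set (Fin j → ℕ)))
  · intro f hf
    rw [Finset.mem_coe, Fintype.mem_piFinset]
    intro i
    exact hf.mem i i.2
  · intro f hf g hg h
    funext k
    rcases Nat.lt_or_ge k j with hk | hk
    · exact congrFun h ⟨k, hk⟩
    · rw [hf.zero k hk, hg.zero k hk]
  · exact Finset.finite_toSet _

/-- The finite set of good words of length `j`. -/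
noncomputable def W (L : ℕ → Finset ℕ) (K : ℕ) (q : ℕ → ℕ) (j : ℕ) : Finset (ℕ → ℕ) :=
  (good_finite L K q j).toFinset

theorem mem_W {j : ℕ} {f : ℕ → ℕ} : f ∈ W L K q j ↔ Good L K q j f := by
  simp [W]

open Classical in
/-- One-letter extensions of good words of length `j`. -/
noncomputable def E (L : ℕ → Finset ℕ) (K : ℕ) (q : ℕ → ℕ) (j : ℕ) : Finset (ℕ → ℕ) :=
  (W L K q j ×ˢ L j).image (fun p => Function.update p.1 j p.2)

theorem mem_E {j : ℕ} {g : ℕ → ℕ} : g ∈ E L K q j ↔
    Good L K q j (tr j g) ∧ g j ∈ L j ∧ ∀ k, j < k → g k = 0 := by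
  classical
  simp only [E, mem_image, mem_product, Prod.exists]
  constructor
  · rintro ⟨f, c, ⟨hf, hc⟩, rfl⟩
    rw [mem_W] at hf
    have e : tr j (Function.update f j c) = f := by
      funext k
      rcases Nat.lt_or_ge k j with hk | hk
      · rw [tr_lt hk, Function.update_of_ne (by omega)]
      · rw [tr_ge hk, hf.zero k hk]
    refine ⟨by rw [e]; exact hf, by simpa using hc, ?_⟩
    intro k hk
    rw [Function.update_of_ne (by omega)]
    exact hf.zero k (by omega)
  · rintro ⟨h1, h2, h3⟩
    refine ⟨tr j g, g j, ⟨mem_W.mpr h1, h2⟩, ?_⟩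
    funext k
    rcases Nat.lt_trichotomy k j with hk | hk | hk
    · rw [Function.update_of_ne (by omega), tr_lt hk]
    · subst hk; simp
    · rw [Function.update_of_ne (by omega), tr_ge (by omega), h3 k hk]

theorem card_E {j : ℕ} (hL : 4 ≤ (L j).card) :
    4 * (W L K q j).card ≤ (E L K q j).card := by
  classical
  unfold E
  rw [card_image_of_injOn]
  · rw [card_product, mul_comm]
    exact Nat.mul_le_mul_left _ hL
  · rintro ⟨f, c⟩ hf ⟨f', c'⟩ hf' h
    simp only [coe_product, Set.mem_prod, mem_coe] at hf hf'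
    have h1 := mem_W.mp hf.1
    have h2 := mem_W.mp hf'.1
    simp only at h
    have hc : c = c' := by
      have := congrFun h j
      simpa using this
    have hff : f = f' := by
      funext k
      by_cases hk : k = j
      · subst hk
        rw [h1.zero k le_rfl, h2.zero k le_rfl]
      · have := congrFun h k
        rwa [Function.update_of_ne hk, Function.update_of_ne hk] at this
    rw [hc, hff]

/-- The basic injection principle. -/
theorem card_le_W {j : ℕ} {S : Finset (ℕ → ℕ)} (hS : S ⊆ E L K q j) {i : ℕ} (hK : K ≤ i)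
    (hij : i ≤ j) (inj : ∀ g ∈ S, ∀ g' ∈ S, (∀ k < i, g k = g' k) →
      ∀ k, i ≤ k → k ≤ j → g k = g' k) :
    S.card ≤ (W L K q i).card := by
  apply card_le_card_of_injOn (tr i)
  · intro g hg
    have h := mem_E.mp (hS hg)
    have h2 := h.1.tr hK hij
    rw [mem_coe, mem_W]
    have e : tr i (tr j g) = tr i g := by
      funext k
      rcases Nat.lt_or_ge k i with hk | hk
      · rw [tr_lt hk, tr_lt hk, tr_lt (by omega)]
      · rw [tr_ge hk, tr_ge hk]
    rwa [e] at h2
  · intro g hg g' hg' h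
    funext k
    rcases Nat.lt_or_ge k i with hk | hk
    · exact tr_eq_iff h hk
    · rcases Nat.lt_or_ge j k with hk2 | hk2
      · rw [(mem_E.mp (hS hg)).2.2 k hk2, (mem_E.mp (hS hg')).2.2 k hk2]
      · exact inj g hg g' hg' (fun k hk => tr_eq_iff h hk) k hk hk2

open Classical in
/-- Good words whose last letter equals the letter two places before. -/
noncomputable def TA (L : ℕ → Finset ℕ) (K : ℕ) (q : ℕ → ℕ) (j : ℕ) : Finset (ℕ → ℕ) :=
  (W L K q j).filter (fun f => f (j - 1) = f (j - 3))

theorem W_K (B : Block L K q) : (W L K q K).card = 1 := by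
  rw [card_eq_one]
  refine ⟨tr K q, ?_⟩
  ext f
  rw [mem_W, mem_singleton]
  constructor
  · intro h
    funext k
    rcases Nat.lt_or_ge k K with hk | hk
    · rw [tr_lt hk, h.pre k hk]
    · rw [tr_ge hk, h.zero k hk]
  · rintro rfl
    refine ⟨fun k hk => by rw [tr_lt hk]; exact B.qmem k hk, fun k hk => tr_ge hk,
      fun k hk => tr_lt hk, ?_, ?_⟩
    · intro s m hm hs h
      apply B.qsf s m hm hs
      intro k hk
      have := h k hk
      rwa [tr_lt (by omega), tr_lt (by omega)] at this
    · intro p hp hp5; omega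

theorem TA_K (B : Block L K q) : (TA L K q K).card = 0 := by
  classical
  rw [card_eq_zero]
  unfold TA
  rw [filter_eq_empty_iff]
  intro f hf h
  have hg := mem_W.mp hf
  have K3 := B.K3
  rw [hg.pre (K - 1) (by omega), hg.pre (K - 3) (by omega)] at h
  have := B.e1 2 (by omega) (by omega) (by omega)
  have e : K - 1 - 2 = K - 3 := by omega
  rw [e] at this
  exact this h

/-- Inequality (1). -/
theorem ineq1 (B : Block L K q) {j : ℕ} (hj : K ≤ j) :
    (TA L K q (j + 1)).card + (TA L K q j).card ≤ (W L K q j).card := by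
  classical
  have K3 := B.K3
  have h1 : (TA L K q (j + 1)).card ≤
      ((W L K q j).filter (fun f => ¬ f (j - 1) = f (j - 3))).card := by
    apply card_le_card_of_injOn (tr j)
    · intro g hg
      rw [mem_coe, TA, mem_filter, mem_W] at hg
      rw [mem_coe, mem_filter, mem_W]
      refine ⟨hg.1.tr hj (by omega), ?_⟩
      rw [tr_lt (by omega), tr_lt (by omega)]
      intro h
      apply hg.1.sf (j - 3) 2 (by omega) (by omega)
      have h2 := hg.2
      have e1 : j + 1 - 1 = j := by omega
      have e2 : j + 1 - 3 = j - 2 := by omega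
      rw [e1, e2] at h2
      intro k hk
      interval_cases k
      · have e3 : j - 3 + 2 + 0 = j - 1 := by omega
        rw [e3, Nat.add_zero, h]
      · have e3 : j - 3 + 2 + 1 = j := by omega
        have e4 : j - 3 + 1 = j - 2 := by omega
        rw [e3, e4, h2]
    · intro g hg g' hg' h
      rw [mem_coe, TA, mem_filter, mem_W] at hg hg'
      funext k
      rcases Nat.lt_or_ge k j with hk | hk
      · exact tr_eq_iff h hk
      · rcases Nat.lt_or_ge j k with hk2 | hk2
        · rw [hg.1.zero k (by omega), hg'.1.zero k (by omega)]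
        · have : k = j := by omega
          subst this
          have h2 := hg.2
          have h3 := hg'.2
          have e1 : k + 1 - 1 = k := by omega
          have e2 : k + 1 - 3 = k - 2 := by omega
          rw [e1, e2] at h2 h3
          rw [h2, h3]
          exact tr_eq_iff h (by omega)
  have h2 := card_filter_add_card_filter_not (s := W L K q j) (fun f => f (j - 1) = f (j - 3))
  unfold TA at h1 ⊢
  omega

end Pool.Agent.Work.MP_e23409_co
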