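import Mathlib
import Pool.Agent.Work.MP_e23409_co.Count

set_option autoImplicit false

namespace Pool.Agent.Work.MP_e23409_co

open Finset

theorem pick (S : Finset ℕ) (h : 4 ≤ S.card) (a b c : ℕ) :
    ∃ z ∈ S, z ≠ a ∧ z ≠ b ∧ z ≠ c := by
  have h0 : (S \ {a, b, c}).Nonempty := by
    rw [← Finset.card_pos]
    have h1 := Finset.le_card_sdiff {a, b, c} S
    have h2 : ({a, b, c} : Finset ℕ).card ≤ 3 := Finset.card_le_three
    omega
  obtain ⟨z, hz⟩ := h0
  simp only [mem_sdiff, mem_insert, mem_singleton, not_or] at hz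
  exact ⟨z, hz.1, hz.2.1, hz.2.2.1, hz.2.2.2⟩

theorem exists_block (L : ℕ → Finset ℕ) (K : ℕ) (K3 : 3 ≤ K) (K8 : K ≤ 8)
    (hL : ∀ k < K, 4 ≤ (L k).card) (y : ℕ) (hy : y ∈ L 0) :
    ∃ q : ℕ → ℕ, Block L K q ∧ q 0 = y := by
  set S : ℕ → Finset ℕ := fun k => if k < K then L (K - k) else L 0 with hS
  have hSc : ∀ k, 1 ≤ k → 4 ≤ (S k).card := by
    intro k hk
    simp only [hS]
    split_ifs with h
    · exact hL _ (by omega)
    · exact hL 0 (by omega)
  obtain ⟨r1, m1, n1, -, -⟩ := pick (S 1) (hSc 1 (by omega)) y y y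
  obtain ⟨r2, m2, n2, n2a, -⟩ := pick (S 2) (hSc 2 (by omega)) y r1 r1
  obtain ⟨r3, m3, n3, n3a, n3b⟩ := pick (S 3) (hSc 3 (by omega)) y r1 r2
  obtain ⟨r4, m4, n4, n4a, n4b⟩ := pick (S 4) (hSc 4 (by omega)) y r1 r3
  obtain ⟨r5, m5, n5, n5a, n5b⟩ := pick (S 5) (hSc 5 (by omega)) y r3 r4
  obtain ⟨r6, m6, n6, n6a, n6b⟩ := pick (S 6) (hSc 6 (by omega)) y r5 r2
  obtain ⟨r7, m7, n7, n7a, n7b⟩ := pick (S 7) (hSc 7 (by omega)) y r6
    (if r6 = r4 then r5 else if r6 = r3 then r4 else if r6 = r1 then r2 else y)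
  have c1 : r6 = r4 → r7 ≠ r5 := by
    intro h; rw [if_pos h] at n7b; exact n7b
  have c2 : r6 = r3 → r7 ≠ r4 := by
    intro h
    rw [if_neg (by rw [h]; exact fun e => n4b e.symm), if_pos h] at n7b
    exact n7b
  have c3 : r6 = r1 → r7 ≠ r2 := by
    intro h
    rw [if_neg (by rw [h]; exact fun e => n4a e.symm),
      if_neg (by rw [h]; exact fun e => n3a e.symm), if_pos h] at n7b
    exact n7b
  -- the reversed word
  set r : ℕ → ℕ := fun k => if k = 1 then r1 else if k = 2 then r2 else if k = 3 then r3 else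
    if k = 4 then r4 else if k = 5 then r5 else if k = 6 then r6 else r7 with hr
  have v1 : r 1 = r1 := rfl
  have v2 : r 2 = r2 := rfl
  have v3 : r 3 = r3 := rfl
  have v4 : r 4 = r4 := rfl
  have v5 : r 5 = r5 := rfl
  have v6 : r 6 = r6 := rfl
  have v7 : r 7 = r7 := rfl
  have ry : ∀ k, 1 ≤ k → k ≤ 7 → r k ≠ y := by
    intro k h1 h7
    interval_cases k
    · rw [v1]; exact n1
    · rw [v2]; exact n2
    · rw [v3]; exact n3
    · rw [v4]; exact n4
    · rw [v5]; exact n5
    · rw [v6]; exact n6
    · rw [v7]; exact n7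
  have rmem : ∀ k, 1 ≤ k → k ≤ 7 → r k ∈ S k := by
    intro k h1 h7
    interval_cases k
    · rw [v1]; exact m1
    · rw [v2]; exact m2
    · rw [v3]; exact m3
    · rw [v4]; exact m4
    · rw [v5]; exact m5
    · rw [v6]; exact m6
    · rw [v7]; exact m7
  have rsf : ∀ s m, 1 ≤ m → s + 2 * m ≤ 7 → ¬ ∀ k < m, r (s + 1 + k) = r (s + 1 + m + k) := by
    intro s m hm hs h
    have hm3 : m ≤ 3 := by omega
    interval_cases m
    · have h0 := h 0 (by omega)
      have hs5 : s ≤ 5 := by omega
      interval_cases s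
      · exact n2a h0.symm
      · exact n3b h0.symm
      · exact n4b h0.symm
      · exact n5b h0.symm
      · exact n6a h0.symm
      · exact n7a h0.symm
    · have h0 := h 0 (by omega)
      have h1 := h 1 (by omega)
      have hs5 : s ≤ 3 := by omega
      interval_cases s
      · exact n3a h0.symm
      · exact n5a h1.symm
      · exact n5a h0.symm
      · exact c1 h0.symm h1.symm
    · have h0 := h 0 (by omega)
      have h1 := h 1 (by omega)
      have h2 := h 2 (by omega)
      have hs5 : s ≤ 1 := by omega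
      interval_cases s
      · exact n4a h0.symm
      · exact c2 h1.symm h2.symm
  refine ⟨fun i => if i = 0 then y else r (K - i), ?_, by simp⟩
  refine ⟨K3, K8, ?_, ?_, ?_, ?_, ?_⟩
  · intro k hk
    by_cases h0 : k = 0
    · subst h0; simpa using hy
    · simp only [h0, if_false]
      have := rmem (K - k) (by omega) (by omega)
      simp only [hS] at this
      rw [if_pos (by omega)] at this
      have e : K - (K - k) = k := by omega
      rwa [e] at this
  · intro k h1 h2
    simp only [if_true]
    rw [if_neg (by omega)]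
    exact ry _ (by omega) (by omega)
  · intro s m hm hs h
    rcases Nat.eq_zero_or_pos s with rfl | hpos
    · have := h 0 (by omega)
      simp only [Nat.add_zero, Nat.zero_add, if_true] at this
      rw [if_neg (by omega)] at this
      exact ry (K - m) (by omega) (by omega) this.symm
    · apply rsf (K - s - 2 * m) m hm (by omega)
      intro k hk
      have := h (m - 1 - k) (by omega)
      rw [if_neg (by omega), if_neg (by omega)] at this
      have e1 : K - (s + (m - 1 - k)) = K - s - 2 * m + 1 + m + k := by omega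
      have e2 : K - (s + m + (m - 1 - k)) = K - s - 2 * m + 1 + k := by omega
      rw [e1, e2] at this
      exact this.symm
  · intro m h1 h3 hK h
    rw [if_neg (by omega)] at h
    have e1 : K - (K - 1) = 1 := by omega
    rw [e1, v1] at h
    by_cases h0 : K - 1 - m = 0
    · rw [if_pos h0] at h
      exact n1 h
    · rw [if_neg h0] at h
      have e2 : K - (K - 1 - m) = m + 1 := by omega
      rw [e2] at h
      interval_cases m
      · exact n2a h.symm
      · exact n3a h.symm
      · exact n4a h.symm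
  · intro m h4 hK h h'
    rw [if_neg (by omega), if_neg (by omega)] at h
    rw [if_neg (by omega)] at h'
    have e1 : K - (K - 1) = 1 := by omega
    have e2 : K - (K - 1 - m) = m + 1 := by omega
    have e3 : K - (K - 2) = 2 := by omega
    rw [e1, e2] at h
    rw [e3, v2] at h'
    by_cases h0 : K - 2 - m = 0
    · rw [if_pos h0] at h'
      exact n2 h'
    · rw [if_neg h0] at h'
      have e4 : K - (K - 2 - m) = m + 2 := by omega
      rw [e4] at h'
      have hm5 : m ≤ 5 := by omega
      interval_cases m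
      · exact n6b h'.symm
      · exact c3 h.symm h'.symm

end Pool.Agent.Work.MP_e23409_co
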