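import Mathlib
import Pool.Agent.Work.MP_e23409_co.Count

set_option autoImplicit false

namespace Pool.Agent.Work.MP_e23409_co

open Finset

variable {L : ℕ → Finset ℕ} {K : ℕ} {q : ℕ → ℕ}

open Classical in
noncomputable def B1 (L : ℕ → Finset ℕ) (K : ℕ) (q : ℕ → ℕ) (j : ℕ) : Finset (ℕ → ℕ) :=
  (E L K q j).filter (fun g => g j = g (j - 1))

open Classical in
noncomputable def B2 (L : ℕ → Finset ℕ) (K : ℕ) (q : ℕ → ℕ) (j : ℕ) : Finset (ℕ → ℕ) :=
  (E L K q j).filter (fun g => g j = g (j - 2) ∧ g (j - 1) = g (j - 3))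

open Classical in
noncomputable def Bm (L : ℕ → Finset ℕ) (K : ℕ) (q : ℕ → ℕ) (j m : ℕ) : Finset (ℕ → ℕ) :=
  (E L K q j).filter (fun g => 2 * m ≤ j + 1 ∧ ∀ k < m, g (j + 1 - 2 * m + k) = g (j + 1 - m + k))

open Classical in
noncomputable def BR (L : ℕ → Finset ℕ) (K : ℕ) (q : ℕ → ℕ) (j : ℕ) : Finset (ℕ → ℕ) :=
  (E L K q j).filter (fun g => ∃ m, j + 1 - K < m ∧ 3 ≤ m ∧ 2 * m ≤ j + 1 ∧
    ∀ k < m, g (j + 1 - 2 * m + k) = g (j + 1 - m + k))

open Classical in
noncomputable def BP (L : ℕ → Finset ℕ) (K : ℕ) (q : ℕ → ℕ) (j : ℕ) : Finset (ℕ → ℕ) :=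
  (E L K q j).filter (fun g => K + 4 ≤ j ∧ ∀ k < 5, g (j - 4 + k) = g k)

theorem mem_B1 {j : ℕ} {g : ℕ → ℕ} : g ∈ B1 L K q j ↔ g ∈ E L K q j ∧ g j = g (j - 1) := by
  classical
  simp only [B1, mem_filter]

theorem mem_B2 {j : ℕ} {g : ℕ → ℕ} : g ∈ B2 L K q j ↔
    g ∈ E L K q j ∧ g j = g (j - 2) ∧ g (j - 1) = g (j - 3) := by
  classical
  simp only [B2, mem_filter]

theorem mem_Bm {j m : ℕ} {g : ℕ → ℕ} : g ∈ Bm L K q j m ↔
    g ∈ E L K q j ∧ 2 * m ≤ j + 1 ∧ ∀ k < m, g (j + 1 - 2 * m + k) = g (j + 1 - m + k) := by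
  simp only [Bm, mem_filter]

open Classical in
theorem mem_BR {j : ℕ} {g : ℕ → ℕ} : g ∈ BR L K q j ↔
    g ∈ E L K q j ∧ ∃ m, j + 1 - K < m ∧ 3 ≤ m ∧ 2 * m ≤ j + 1 ∧
    ∀ k < m, g (j + 1 - 2 * m + k) = g (j + 1 - m + k) := by
  simp only [BR, mem_filter]

open Classical in
theorem mem_BP {j : ℕ} {g : ℕ → ℕ} : g ∈ BP L K q j ↔
    g ∈ E L K q j ∧ K + 4 ≤ j ∧ ∀ k < 5, g (j - 4 + k) = g k := by
  simp only [BP, mem_filter]

theorem card_B1 (B : Block L K q) {j : ℕ} (hj : K ≤ j) :
    (B1 L K q j).card ≤ (W L K q j).card := by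
  classical
  have K3 := B.K3
  apply card_le_W (j := j) (fun g hg => (mem_B1.mp hg).1) hj le_rfl
  intro g hg g' hg' h k hk1 hk2
  have : k = j := by omega
  subst this
  have h1 := (mem_B1.mp hg).2
  have h2 := (mem_B1.mp hg').2
  rw [h1, h2]
  exact h _ (by omega)

theorem card_B2 (B : Block L K q) {j : ℕ} (hj : K ≤ j) :
    (B2 L K q j).card ≤ (TA L K q j).card := by
  classical
  have K3 := B.K3
  apply card_le_card_of_injOn (tr j)
  · intro g hg
    rw [mem_coe, mem_B2, mem_E] at hg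
    rw [mem_coe, TA, mem_filter, mem_W]
    refine ⟨hg.1.1, ?_⟩
    rw [tr_lt (by omega), tr_lt (by omega)]
    exact hg.2.2
  · intro g hg g' hg' h
    rw [mem_coe, mem_B2, mem_E] at hg hg'
    funext k
    rcases Nat.lt_trichotomy k j with hk | hk | hk
    · exact tr_eq_iff h hk
    · subst hk
      rw [hg.2.1, hg'.2.1]
      exact tr_eq_iff h (by omega)
    · rw [hg.1.2.2 k hk, hg'.1.2.2 k hk]

theorem card_Bm {j m : ℕ} (hm : 1 ≤ m) (hj : m ≤ j + 1 - K) (hj2 : K ≤ j) :
    (Bm L K q j m).card ≤ (W L K q (j + 1 - m)).card := by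
  classical
  apply card_le_W (j := j) (fun g hg => (mem_Bm.mp hg).1) (by omega) (by omega)
  intro g hg g' hg' h k hk1 hk2
  have h1 := (mem_Bm.mp hg).2
  have h2 := (mem_Bm.mp hg').2
  have e1 := h1.2 (k - (j + 1 - m)) (by omega)
  have e2 := h2.2 (k - (j + 1 - m)) (by omega)
  have e3 : j + 1 - m + (k - (j + 1 - m)) = k := by omega
  rw [e3] at e1 e2
  rw [← e1, ← e2]
  apply h
  have := h1.1
  omega

theorem card_BP (B : Block L K q) {j : ℕ} :
    (BP L K q j).card ≤ if K + 4 ≤ j then (W L K q (j - 4)).card else 0 := by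
  classical
  have hj := B.K3
  split_ifs with hK
  · apply card_le_W (j := j) (fun g hg => (mem_BP.mp hg).1) (by omega) (by omega)
    intro g hg g' hg' h k
    have h1 := (mem_BP.mp hg).2
    have h2 := (mem_BP.mp hg').2
    induction k using Nat.strong_induction_on with
    | _ k ih =>
      intro hk1 hk2
      have e1 := h1.2 (k - (j - 4)) (by omega)
      have e2 := h2.2 (k - (j - 4)) (by omega)
      have e3 : j - 4 + (k - (j - 4)) = k := by omega
      rw [e3] at e1 e2
      rw [e1, e2]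
      by_cases hlt : k - (j - 4) < j - 4
      · exact h _ hlt
      · exact ih _ (by have := hj; omega) (by omega) (by omega)
  · rw [Nat.le_zero, card_eq_zero, eq_empty_iff_forall_notMem]
    intro g h
    exact hK (mem_BP.mp h).2.1

theorem BR_key (B : Block L K q) {j : ℕ} (hj : K ≤ j) {g : ℕ → ℕ} (hg : g ∈ E L K q j) {m : ℕ}
    (hm1 : j + 1 - K < m) (hm3 : 3 ≤ m) (hm2 : 2 * m ≤ j + 1)
    (h : ∀ k < m, g (j + 1 - 2 * m + k) = g (j + 1 - m + k)) :
    m = j + 2 - K ∧ 4 ≤ m ∧ m ≤ 6 := by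
  have K3 := B.K3
  have K8 := B.K8
  have hgood := (mem_E.mp hg).1
  have hq : ∀ k < K, g k = q k := by
    intro k hk
    have := hgood.pre k hk
    rwa [tr_lt (by omega)] at this
  -- first match
  have a1 := h (m - (j + 2 - K)) (by omega)
  have e1 : j + 1 - 2 * m + (m - (j + 2 - K)) = K - 1 - m := by omega
  have e2 : j + 1 - m + (m - (j + 2 - K)) = K - 1 := by omega
  rw [e1, e2, hq _ (by omega), hq _ (by omega)] at a1
  have m4 : 4 ≤ m := by
    by_contra hlt
    exact B.e1 m (by omega) (by omega) (by omega) a1.symm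
  have mK : m + 2 ≤ K := by
    by_contra hlt
    have : K - 1 - m = 0 := by omega
    rw [this] at a1
    exact B.qy (K - 1) (by omega) (by omega) a1.symm
  refine ⟨?_, m4, by omega⟩
  by_contra hne
  have a2 := h (m - (j + 2 - K) - 1) (by omega)
  have e3 : j + 1 - 2 * m + (m - (j + 2 - K) - 1) = K - 2 - m := by omega
  have e4 : j + 1 - m + (m - (j + 2 - K) - 1) = K - 2 := by omega
  rw [e3, e4, hq _ (by omega), hq _ (by omega)] at a2
  exact B.e2 m m4 mK a1.symm a2.symm

theorem card_BR (B : Block L K q) {j : ℕ} (hj : K ≤ j) :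
    (BR L K q j).card ≤ if j - K = 2 ∨ j - K = 3 ∨ j - K = 4 then 1 else 0 := by
  classical
  have K3 := B.K3
  split_ifs with hc
  · rw [card_le_one]
    intro g hg g' hg'
    rw [mem_BR] at hg hg'
    obtain ⟨hgE, m, a1, a2, a3, a4⟩ := hg
    obtain ⟨hgE', m', b1, b2, b3, b4⟩ := hg'
    have k1 := BR_key B hj hgE a1 a2 a3 a4
    have k2 := BR_key B hj hgE' b1 b2 b3 b4
    have hmm : m' = m := by omega
    subst hmm
    funext k
    rcases Nat.lt_or_ge j k with hk | hk
    · rw [(mem_E.mp hgE).2.2 k hk, (mem_E.mp hgE').2.2 k hk]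
    · have hq : ∀ k < K, g k = g' k := by
        intro k hk
        have c1 := (mem_E.mp hgE).1.pre k hk
        have c2 := (mem_E.mp hgE').1.pre k hk
        rw [tr_lt (by omega)] at c1 c2
        rw [c1, c2]
      rcases Nat.lt_or_ge k K with hk2 | hk2
      · exact hq k hk2
      · have e1 := a4 (k - (j + 1 - m')) (by omega)
        have e2 := b4 (k - (j + 1 - m')) (by omega)
        have e3 : j + 1 - m' + (k - (j + 1 - m')) = k := by omega
        rw [e3] at e1 e2
        rw [← e1, ← e2]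
        exact hq _ (by omega)
  · rw [Nat.le_zero, card_eq_zero, eq_empty_iff_forall_notMem]
    intro g hgR
    obtain ⟨hg, m, a1, a2, a3, a4⟩ := mem_BR.mp hgR
    have k1 := BR_key B hj hg a1 a2 a3 a4
    omega

open Classical in
/-- Every extension that is not good lies in one of the bad sets. -/
theorem cover (B : Block L K q) {j : ℕ} (hj : K ≤ j) :
    E L K q j ⊆ W L K q (j + 1) ∪ B1 L K q j ∪ B2 L K q j ∪
      (Icc 3 (j + 1 - K)).biUnion (fun m => Bm L K q j m) ∪ BR L K q j ∪ BP L K q j := by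
  classical
  have K3 := B.K3
  intro g hg
  by_contra hcon
  simp only [mem_union, not_or] at hcon
  obtain ⟨⟨⟨⟨⟨c1, c2⟩, c3⟩, c4⟩, c5⟩, c6⟩ := hcon
  apply c1
  rw [mem_W]
  obtain ⟨g1, g2, g3⟩ := mem_E.mp hg
  refine ⟨?_, ?_, ?_, ?_, ?_⟩
  · intro k hk
    rcases Nat.lt_or_ge k j with hk2 | hk2
    · have := g1.mem k hk2
      rwa [tr_lt hk2] at this
    · have : k = j := by omega
      subst this
      exact g2
  · intro k hk
    exact g3 k (by omega)
  · intro k hk
    have := g1.pre k hk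
    rwa [tr_lt (by omega)] at this
  · intro s m hm hs h
    rcases Nat.lt_or_ge (s + 2 * m) (j + 1) with hs2 | hs2
    · apply g1.sf s m hm (by omega)
      intro k hk
      rw [tr_lt (by omega), tr_lt (by omega)]
      exact h k hk
    · have hs3 : s = j + 1 - 2 * m := by omega
      have h' : ∀ k < m, g (j + 1 - 2 * m + k) = g (j + 1 - m + k) := by
        intro k hk
        have := h k hk
        have e1 : s + k = j + 1 - 2 * m + k := by omega
        have e2 : s + m + k = j + 1 - m + k := by omega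
        rwa [e1, e2] at this
      rcases Nat.lt_or_ge m 3 with hm3 | hm3
      · have hm12 : m = 1 ∨ m = 2 := by omega
        rcases hm12 with rfl | rfl
        · apply c2
          rw [mem_B1]
          refine ⟨hg, ?_⟩
          have := h' 0 (by omega)
          have e1 : j + 1 - 2 * 1 + 0 = j - 1 := by omega
          have e2 : j + 1 - 1 + 0 = j := by omega
          rw [e1, e2] at this
          exact this.symm
        · apply c3
          rw [mem_B2]
          refine ⟨hg, ?_, ?_⟩
          · have := h' 1 (by omega)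
            have e1 : j + 1 - 2 * 2 + 1 = j - 2 := by omega
            have e2 : j + 1 - 2 + 1 = j := by omega
            rw [e1, e2] at this
            exact this.symm
          · have := h' 0 (by omega)
            have e1 : j + 1 - 2 * 2 + 0 = j - 3 := by omega
            have e2 : j + 1 - 2 + 0 = j - 1 := by omega
            rw [e1, e2] at this
            exact this.symm
      · rcases Nat.lt_or_ge (j + 1 - K) m with hmK | hmK
        · apply c5
          rw [mem_BR]
          exact ⟨hg, m, hmK, hm3, by omega, h'⟩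
        · apply c4
          rw [mem_biUnion]
          refine ⟨m, mem_Icc.mpr ⟨hm3, hmK⟩, ?_⟩
          rw [mem_Bm]
          exact ⟨hg, by omega, h'⟩
  · intro p hp hp5 h
    rcases Nat.lt_or_ge (p + 5) (j + 1) with hp2 | hp2
    · apply g1.nop p hp (by omega)
      intro k hk
      rw [tr_lt (by omega), tr_lt (by omega)]
      exact h k hk
    · apply c6
      rw [mem_BP]
      refine ⟨hg, by omega, ?_⟩
      intro k hk
      have := h k hk
      have e1 : p + k = j - 4 + k := by omega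
      rwa [e1] at this

/-- Inequality (2). -/
theorem ineq2 (B : Block L K q) {j : ℕ} (hj : K ≤ j) (hL : 4 ≤ (L j).card) :
    3 * (W L K q j).card ≤ (W L K q (j + 1)).card + (TA L K q j).card
      + ∑ m ∈ Icc 3 (j + 1 - K), (W L K q (j + 1 - m)).card
      + (if j - K = 2 ∨ j - K = 3 ∨ j - K = 4 then 1 else 0)
      + (if K + 4 ≤ j then (W L K q (j - 4)).card else 0) := by
  classical
  have h1 := card_E (K := K) (q := q) hL
  have h2 := card_le_card (cover B hj)
  have h3 := card_union_le (W L K q (j + 1) ∪ B1 L K q j ∪ B2 L K q j ∪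
      (Icc 3 (j + 1 - K)).biUnion (fun m => Bm L K q j m) ∪ BR L K q j) (BP L K q j)
  have h4 := card_union_le (W L K q (j + 1) ∪ B1 L K q j ∪ B2 L K q j ∪
      (Icc 3 (j + 1 - K)).biUnion (fun m => Bm L K q j m)) (BR L K q j)
  have h5 := card_union_le (W L K q (j + 1) ∪ B1 L K q j ∪ B2 L K q j)
      ((Icc 3 (j + 1 - K)).biUnion (fun m => Bm L K q j m))
  have h6 := card_union_le (W L K q (j + 1) ∪ B1 L K q j) (B2 L K q j)
  have h7 := card_union_le (W L K q (j + 1)) (B1 L K q j)
  have h8 : ((Icc 3 (j + 1 - K)).biUnion (fun m => Bm L K q j m)).card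
      ≤ ∑ m ∈ Icc 3 (j + 1 - K), (W L K q (j + 1 - m)).card := by
    refine le_trans card_biUnion_le ?_
    apply sum_le_sum
    intro m hm
    rw [mem_Icc] at hm
    exact card_Bm (by omega) hm.2 hj
  have b1 := card_B1 B hj
  have b2 := card_B2 B hj
  have b3 := card_BR B hj
  have b4 := card_BP B (j := j)
  omega

end Pool.Agent.Work.MP_e23409_co
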