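import Mathlib

set_option autoImplicit false

namespace Pool.Agent.Work.MP_e23409_co

open Finset

/-- The purely numerical part of the counting argument. -/
theorem numeric (M : ℕ) (hM : 1 ≤ M) (x a : ℕ → ℕ)
    (hx0 : x 0 = 1) (ha0 : a 0 = 0)
    (h1 : ∀ i < M, a (i + 1) + a i ≤ x i)
    (h2 : ∀ i < M, 3 * x i ≤ x (i + 1) + a i + (∑ k ∈ range (i - 1), x k)
      + (if i = 2 ∨ i = 3 ∨ i = 4 then 1 else 0) + (if 4 ≤ i then x (i - 4) else 0)) :
    a M + x (M - 1) + (∑ k ∈ range (M - 1), (M + 2 - k) * x k)
      + (if 7 ≤ M then ∑ l ∈ Icc 1 4, ∑ k ∈ range (M - 6 + l), x k else 0) < 3 * x M := by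
  set X : ℕ → ℝ := fun i => (x i : ℝ) with hX
  set A : ℕ → ℝ := fun i => (a i : ℝ) with hA
  set Z : ℕ → ℝ := fun i => X i - 27 / 100 * A i with hZ
  have hA0 : ∀ i, 0 ≤ A i := fun i => Nat.cast_nonneg _
  have hX0 : ∀ i, 0 ≤ X i := fun i => Nat.cast_nonneg _
  have r1 : ∀ i < M, A (i + 1) + A i ≤ X i := by
    intro i hi
    have := h1 i hi
    simp only [hA, hX]
    exact_mod_cast this
  have r2 : ∀ i < M, 3 * X i ≤ X (i + 1) + A i + (∑ k ∈ range (i - 1), X k)
      + (if i = 2 ∨ i = 3 ∨ i = 4 then 1 else 0) + (if 4 ≤ i then X (i - 4) else 0) := by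
    intro i hi
    have := h2 i hi
    simp only [hA, hX]
    have h3 : ((3 * x i : ℕ) : ℝ) ≤ ((x (i + 1) + a i + (∑ k ∈ range (i - 1), x k)
      + (if i = 2 ∨ i = 3 ∨ i = 4 then 1 else 0) + (if 4 ≤ i then x (i - 4) else 0) : ℕ) : ℝ) := by
      exact_mod_cast this
    push_cast at h3
    exact h3
  -- X in terms of Z
  have hXZ : ∀ i < M, X (i + 1) ≤ Z (i + 1) + 27 / 100 * Z i := by
    intro i hi
    have := r1 i hi
    have h0 := hA0 i
    simp only [hZ]
    nlinarith
  have hXZ0 : X 0 = 1 := by simp [hX, hx0]
  have hZ0 : Z 0 = 1 := by simp [hZ, hX, hA, hx0, ha0]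
  have hAZ : ∀ i < M, A (i + 1) ≤ Z i := by
    intro i hi
    have := r1 i hi
    have h0 := hA0 i
    simp only [hZ]
    nlinarith
  have key : ∀ i < M, 273 / 100 * Z i ≤ Z (i + 1) + (∑ k ∈ range (i - 1), X k)
      + (if i = 2 ∨ i = 3 ∨ i = 4 then 1 else 0) + (if 4 ≤ i then X (i - 4) else 0) := by
    intro i hi
    have e1 := r1 i hi
    have e2 := r2 i hi
    have h0 := hA0 i
    simp only [hZ]
    nlinarith
  -- the main induction
  have main : ∀ i ≤ M, (1 ≤ Z i ∧ (∀ k < i, 23 / 10 * Z k ≤ Z (k + 1)) ∧
      (∑ k ∈ range (i + 1), X k ≤ 198 / 100 * Z i)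
      ∧ (2 ≤ i → 7.45 ≤ Z i) ∧ (3 ≤ i → 18.3 ≤ Z i) ∧ (4 ≤ i → 42 ≤ Z i)) := by
    intro i
    induction i using Nat.strong_induction_on with
    | _ i ih =>
      intro hi
      rcases Nat.eq_zero_or_pos i with rfl | hpos
      · refine ⟨by rw [hZ0], by intro k hk; omega, ?_, by omega, by omega, by omega⟩
        simp [hXZ0, hZ0]
        norm_num
      · obtain ⟨j, rfl⟩ : ∃ j, i = j + 1 := ⟨i - 1, by omega⟩
        obtain ⟨g1, g2, g3, g4, g5, g6⟩ := ih j (by omega) (by omega)
        have kj := key j (by omega)
        -- bound on the partial sums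
        have hsum : ∀ l, l + 2 ≤ j → ∑ k ∈ range (l + 1), X k ≤ 198 / 100 * Z l := by
          intro l hl
          exact (ih l (by omega) (by omega)).2.2.1
        have hZpos : ∀ l, l ≤ j → 0 < Z l := by
          intro l hl
          have := (ih l (by omega) (by omega)).1
          linarith
        have step : 23 / 10 * Z j ≤ Z (j + 1) ∧ (1 ≤ j → 7.45 ≤ Z (j + 1)) ∧
            (2 ≤ j → 18.3 ≤ Z (j + 1)) ∧ (3 ≤ j → 42 ≤ Z (j + 1)) := by
          rcases Nat.lt_or_ge j 2 with hj | hj
          · -- j = 0, 1
            have hj' : j = 0 ∨ j = 1 := by omega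
            rcases hj' with rfl | rfl
            · simp at kj
              rw [hZ0] at kj ⊢
              refine ⟨by simp; linarith, by omega, by omega, by omega⟩
            · have k0 := key 0 (by omega)
              simp at kj k0
              rw [hZ0] at k0
              refine ⟨by linarith, fun _ => by norm_num; linarith, by omega, by omega⟩
          · -- j ≥ 2
            have s := hsum (j - 2) (by omega)
            have e : j - 2 + 1 = j - 1 := by omega
            rw [e] at s
            have q1 := g2 (j - 2) (by omega)
            have q2 := g2 (j - 1) (by omega)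
            have e1 : j - 2 + 1 = j - 1 := by omega
            have e2 : j - 1 + 1 = j := by omega
            rw [e1] at q1
            rw [e2] at q2
            have p1 := hZpos (j - 2) (by omega)
            have g4' := g4 hj
            rcases Nat.lt_or_ge j 5 with hj5 | hj5
            · interval_cases j
              · simp at kj s q1 q2
                rw [hXZ0] at kj
                norm_num at g4' ⊢
                refine ⟨by linarith, by linarith, by linarith⟩
              · simp at kj
                have g5' := g5 le_rfl
                norm_num at s q1 q2 g5' ⊢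
                constructor
                · linarith
                · refine ⟨by linarith, by linarith, by linarith⟩
              · simp at kj
                rw [hXZ0] at kj
                have g6' := g6 le_rfl
                norm_num at s q1 q2 g6' ⊢
                constructor
                · linarith
                · refine ⟨by linarith, by linarith, by linarith⟩
            · have g6' := g6 (by omega)
              rw [if_neg (by omega), if_pos (by omega)] at kj
              have xb := hXZ (j - 5) (by omega)
              have e5 : j - 5 + 1 = j - 4 := by omega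
              rw [e5] at xb
              have q3 := g2 (j - 3) (by omega)
              have q4 := g2 (j - 4) (by omega)
              have q5 := g2 (j - 5) (by omega)
              have e3 : j - 3 + 1 = j - 2 := by omega
              have e4 : j - 4 + 1 = j - 3 := by omega
              rw [e3] at q3
              rw [e4] at q4
              rw [e5] at q5
              have ps := hZpos (j - 5) (by omega)
              have big : 23 / 10 * Z j ≤ Z (j + 1) := by linarith
              norm_num at g6' ⊢
              refine ⟨by linarith, by intro _; linarith, by intro _; linarith,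
                by intro _; linarith⟩
        refine ⟨by linarith [step.1], ?_, ?_, fun h => step.2.1 (by omega),
          fun h => step.2.2.1 (by omega), fun h => step.2.2.2 (by omega)⟩
        · intro k hk
          rcases Nat.lt_or_ge k j with hkj | hkj
          · exact g2 k hkj
          · have : k = j := by omega
            subst this
            exact step.1
        · rw [sum_range_succ]
          have xb := hXZ j (by omega)
          linarith [step.1]
  -- the weighted sum
  have hT : ∀ i, i + 2 ≤ M → ∑ k ∈ range (i + 1), ((i : ℝ) + 4 - k) * X k ≤ 944 / 100 * Z i := by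
    intro i
    induction i with
    | zero =>
      intro _
      simp [hXZ0, hZ0]
      norm_num
    | succ i ih =>
      intro hi
      have ih' := ih (by omega)
      rw [sum_range_succ]
      have hs : ∑ k ∈ range (i + 1), (((i + 1 : ℕ) : ℝ) + 4 - k) * X k
          = ∑ k ∈ range (i + 1), ((i : ℝ) + 4 - k) * X k + ∑ k ∈ range (i + 1), X k := by
        rw [← sum_add_distrib]
        apply sum_congr rfl
        intro k _
        push_cast
        ring
      rw [hs]
      obtain ⟨-, m2, -, -⟩ := main (i + 1) (by omega)
      have m3 := (main i (by omega)).2.2.1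
      have m2' := m2 i (by omega)
      have xb := hXZ i (by omega)
      have zp := (main i (by omega)).1
      push_cast
      have e : ((i : ℝ) + 1 + 4 - (i + 1)) = 4 := by ring
      rw [e]
      linarith
  -- conclusion
  obtain ⟨m1, m2, m3, m4, m5, m6⟩ := main M le_rfl
  have goalR : A M + X (M - 1) + (∑ k ∈ range (M - 1), ((M : ℝ) + 2 - k) * X k)
      + (if 7 ≤ M then ∑ l ∈ Icc 1 4, ∑ k ∈ range (M - 6 + l), X k else 0) < 3 * X M := by
    have aM := hAZ (M - 1) (by omega)
    have e0 : M - 1 + 1 = M := by omega
    rw [e0] at aM
    have q1 := m2 (M - 1) (by omega)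
    rw [e0] at q1
    have xM : X M = Z M + 27 / 100 * A M := by simp only [hZ]; ring
    rcases Nat.lt_or_ge M 2 with hM2 | hM2
    · have : M = 1 := by omega
      subst this
      simp at aM q1 ⊢
      rw [hZ0] at aM q1
      rw [hXZ0, xM]
      linarith
    · have t := hT (M - 2) (by omega)
      have e2 : M - 2 + 1 = M - 1 := by omega
      rw [e2] at t
      have hcast : ((M - 2 : ℕ) : ℝ) = (M : ℝ) - 2 := by
        rw [Nat.cast_sub hM2]; norm_num
      rw [hcast] at t
      have t' : ∑ k ∈ range (M - 1), ((M : ℝ) + 2 - k) * X k ≤ 944 / 100 * Z (M - 2) := by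
        refine le_trans (le_of_eq ?_) t
        apply sum_congr rfl
        intro k _
        ring
      have q2 := m2 (M - 2) (by omega)
      rw [e2] at q2
      have xb := hXZ (M - 2) (by omega)
      rw [e2] at xb
      have zp := (main (M - 2) (by omega)).1
      split_ifs with h7
      · have e : ∑ l ∈ Icc 1 4, ∑ k ∈ range (M - 6 + l), X k =
            ∑ k ∈ range (M - 6 + 1), X k + ∑ k ∈ range (M - 5 + 1), X k
            + ∑ k ∈ range (M - 4 + 1), X k + ∑ k ∈ range (M - 3 + 1), X k := by
          have f1 : M - 6 + 2 = M - 5 + 1 := by omega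
          have f2 : M - 6 + 3 = M - 4 + 1 := by omega
          have f3 : M - 6 + 4 = M - 3 + 1 := by omega
          rw [show (Icc 1 4 : Finset ℕ) = {1, 2, 3, 4} by rfl]
          rw [sum_insert (by simp), sum_insert (by simp), sum_insert (by simp), sum_singleton,
            f1, f2, f3]
          ring
        rw [e]
        have s6 := (main (M - 6) (by omega)).2.2.1
        have s5 := (main (M - 5) (by omega)).2.2.1
        have s4 := (main (M - 4) (by omega)).2.2.1
        have s3 := (main (M - 3) (by omega)).2.2.1
        have q3 := m2 (M - 3) (by omega)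
        have q4 := m2 (M - 4) (by omega)
        have q5 := m2 (M - 5) (by omega)
        have q6 := m2 (M - 6) (by omega)
        have e3 : M - 3 + 1 = M - 2 := by omega
        have e4 : M - 4 + 1 = M - 3 := by omega
        have e5 : M - 5 + 1 = M - 4 := by omega
        have e6 : M - 6 + 1 = M - 5 := by omega
        rw [e3] at q3
        rw [e4] at q4
        rw [e5] at q5
        rw [e6] at q6
        linarith
      · linarith
  have hcast2 : ((a M + x (M - 1) + (∑ k ∈ range (M - 1), (M + 2 - k) * x k)
      + (if 7 ≤ M then ∑ l ∈ Icc 1 4, ∑ k ∈ range (M - 6 + l), x k else 0) : ℕ) : ℝ)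
      < ((3 * x M : ℕ) : ℝ) := by
    push_cast
    have e : ∑ k ∈ range (M - 1), ((M + 2 - k : ℕ) : ℝ) * (x k : ℝ)
        = ∑ k ∈ range (M - 1), ((M : ℝ) + 2 - k) * X k := by
      apply sum_congr rfl
      intro k hk
      rw [mem_range] at hk
      rw [Nat.cast_sub (by omega)]
      push_cast
      rfl
    rw [e]
    exact goalR
  exact_mod_cast hcast2

end Pool.Agent.Work.MP_e23409_co
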