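import Mathlib
import Pool.Agent.Work.MP_e23409_co.Numeric
import Pool.Agent.Work.MP_e23409_co.Count2
import Pool.Agent.Work.MP_e23409_co.BlockEx

set_option autoImplicit false

namespace Pool.Agent.Work.MP_e23409_co

open Finset

variable {L : ℕ → Finset ℕ} {K : ℕ} {q : ℕ → ℕ}

theorem sum_le_of_inj {S T : Finset ℕ} (φ f g : ℕ → ℕ) (hφ : ∀ m ∈ S, φ m ∈ T)
    (inj : ∀ m ∈ S, ∀ m' ∈ S, φ m = φ m' → m = m') (h : ∀ m ∈ S, f m ≤ g (φ m)) :
    ∑ m ∈ S, f m ≤ ∑ k ∈ T, g k := by
  classical
  calc ∑ m ∈ S, f m ≤ ∑ m ∈ S, g (φ m) := sum_le_sum h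
    _ = ∑ k ∈ S.image φ, g k := by
        rw [sum_image]
        intro m hm m' hm' e
        exact inj m hm m' hm' e
    _ ≤ ∑ k ∈ T, g k := by
        apply sum_le_sum_of_subset
        intro k hk
        obtain ⟨m, hm, rfl⟩ := mem_image.mp hk
        exact hφ m hm

/-- cyclic square -/
def Cyc (n : ℕ) (g : ℕ → ℕ) (s m : ℕ) : Prop :=
  ∀ k < m, g ((s + k) % n) = g ((s + m + k) % n)

theorem md1 {n t : ℕ} (h : t < n) : t % n = t := Nat.mod_eq_of_lt h

theorem md2 {n t : ℕ} (h1 : n ≤ t) (h2 : t < 2 * n) : t % n = t - n := by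
  rw [Nat.mod_eq_sub_mod h1, Nat.mod_eq_of_lt (by omega)]

/-- hypotheses on `n`, `K` -/
def Par (n K : ℕ) : Prop := (16 ≤ n ∧ K = 8) ∨ (5 ≤ n ∧ n < 16 ∧ K = n / 2 + 1)

theorem pre_E {n : ℕ} {g : ℕ → ℕ} (hn : K < n) (hg : g ∈ E L K q (n - 1)) :
    ∀ k < K, k < n - 1 → g k = q k := by
  intro k hk hk1
  have := (mem_E.mp hg).1.pre k hk
  rwa [tr_lt hk1] at this

theorem cyc_range {n : ℕ} {g : ℕ → ℕ} (hn : 1 ≤ n) (hg : g ∈ E L K q (n - 1)) {s m : ℕ}
    (hm : 1 ≤ m) (h : Cyc n g s m) : n ≤ s + 2 * m := by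
  by_contra hlt
  apply (mem_E.mp hg).1.sf s m hm (by omega)
  intro k hk
  have := h k hk
  rw [md1 (by omega), md1 (by omega)] at this
  rw [tr_lt (by omega), tr_lt (by omega)]
  exact this

open Classical in
noncomputable def U (L : ℕ → Finset ℕ) (K : ℕ) (q : ℕ → ℕ) (n m b : ℕ) : Finset (ℕ → ℕ) :=
  (E L K q (n - 1)).filter (fun g => Cyc n g (n + b - 2 * m) m)

theorem mem_U {n m b : ℕ} {g : ℕ → ℕ} : g ∈ U L K q n m b ↔
    g ∈ E L K q (n - 1) ∧ Cyc n g (n + b - 2 * m) m := by
  simp only [U, mem_filter]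

theorem card_U (B : Block L K q) {n m b : ℕ} (P : Par n K) (hm : 3 ≤ m) (hmn : 2 * m ≤ n)
    (hb : b ≤ m) : (U L K q n m b).card ≤ if K ≤ n - m then (W L K q (n - m)).card else 0 := by
  classical
  split_ifs with hK
  · apply card_le_W (j := n - 1) (fun g hg => (mem_U.mp hg).1) hK (by omega)
    intro g hg g' hg' h k hk1 hk2
    have key : ∀ g ∈ U L K q n m b, (n + b - m ≤ k → g k = g (k - m)) ∧
        (k < n + b - m → g k = g (k + m - n)) := by
      intro g hg
      have hc := (mem_U.mp hg).2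
      constructor
      · intro hk
        have := hc (k - (n + b - m)) (by omega)
        have e1 : n + b - 2 * m + (k - (n + b - m)) = k - m := by omega
        have e2 : n + b - 2 * m + m + (k - (n + b - m)) = k := by omega
        rw [e1, e2, md1 (by omega), md1 (by omega)] at this
        exact this.symm
      · intro hk
        have := hc (k - (n + b - 2 * m)) (by omega)
        have e1 : n + b - 2 * m + (k - (n + b - 2 * m)) = k := by omega
        have e2 : n + b - 2 * m + m + (k - (n + b - 2 * m)) = k + m := by omega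
        rw [e1, e2, md1 (by omega), md2 (by omega) (by omega)] at this
        exact this
    rcases Nat.lt_or_ge k (n + b - m) with hk | hk
    · rw [(key g hg).2 hk, (key g' hg').2 hk]
      exact h _ (by omega)
    · rw [(key g hg).1 hk, (key g' hg').1 hk]
      exact h _ (by omega)
  · rw [Nat.le_zero, card_eq_zero, eq_empty_iff_forall_notMem]
    intro g hg
    obtain ⟨hgE, hc⟩ := mem_U.mp hg
    unfold Par at P
    have hn : n = 2 * m := by omega
    have hKm : K = m + 1 := by omega
    have h0m : g 0 = g m := by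
      rcases Nat.eq_zero_or_pos b with rfl | hpos
      · have := hc 0 (by omega)
        have e1 : n + 0 - 2 * m + 0 = 0 := by omega
        have e2 : n + 0 - 2 * m + m + 0 = m := by omega
        rw [e1, e2, md1 (by omega), md1 (by omega)] at this
        exact this
      · have := hc (m - b) (by omega)
        have e1 : n + b - 2 * m + (m - b) = m := by omega
        have e2 : n + b - 2 * m + m + (m - b) = n := by omega
        rw [e1, e2, md1 (by omega), md2 (by omega) (by omega), Nat.sub_self] at this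
        exact this.symm
    rw [pre_E (by omega) hgE 0 (by omega) (by omega),
      pre_E (by omega) hgE m (by omega) (by omega)] at h0m
    exact B.qy m (by omega) (by omega) h0m.symm

theorem V_key (B : Block L K q) {n m l : ℕ} (P : Par n K) (hm : 2 ≤ m) (hmn : 2 * m ≤ n)
    (hl1 : 1 ≤ l) (hlm : l < m) {g : ℕ → ℕ} (hg : g ∈ E L K q (n - 1))
    (hc : Cyc n g (n + (m + l) - 2 * m) m) : 16 ≤ n ∧ K = 8 ∧ K ≤ m ∧ l ≤ 4 := by
  have hi : ∀ i < l, g i = g (m + i) := by
    intro i hi
    have := hc (m - l + i) (by omega)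
    have e1 : n + (m + l) - 2 * m + (m - l + i) = n + i := by omega
    have e2 : n + (m + l) - 2 * m + m + (m - l + i) = n + (m + i) := by omega
    rw [e1, e2, md2 (by omega) (by omega), md2 (by omega) (by omega)] at this
    have e3 : n + i - n = i := by omega
    have e4 : n + (m + i) - n = m + i := by omega
    rwa [e3, e4] at this
  have h0 := hi 0 (by omega)
  rw [Nat.add_zero] at h0
  have hKm : K ≤ m := by
    by_contra hlt
    unfold Par at P
    rw [pre_E (by omega) hg 0 (by omega) (by omega),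
      pre_E (by omega) hg m (by omega) (by omega)] at h0
    exact B.qy m (by omega) (by omega) h0.symm
  unfold Par at P
  refine ⟨by omega, by omega, hKm, ?_⟩
  by_contra hl5
  apply (mem_E.mp hg).1.nop m hKm (by omega)
  intro k hk
  rw [tr_lt (by omega), tr_lt (by omega)]
  exact (hi k (by omega)).symm

theorem card_V (B : Block L K q) {n m l : ℕ} (P : Par n K) (hm : K ≤ m) (hmn : 2 * m ≤ n)
    (hl1 : 1 ≤ l) (hlm : l < m) :
    (U L K q n m (m + l)).card ≤ (W L K q (n - (m - l))).card := by
  classical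
  have K3 := B.K3
  apply card_le_W (j := n - 1) (fun g hg => (mem_U.mp hg).1)
    (by unfold Par at P; omega) (by omega)
  intro g hg g' hg' h k hk1 hk2
  have key : ∀ g ∈ U L K q n m (m + l), g k = g (k + m - n) := by
    intro g hg
    have hc := (mem_U.mp hg).2
    have := hc (k - (n - (m - l))) (by omega)
    have e1 : n + (m + l) - 2 * m + (k - (n - (m - l))) = k := by omega
    have e2 : n + (m + l) - 2 * m + m + (k - (n - (m - l))) = k + m := by omega
    rw [e1, e2, md1 (by omega), md2 (by omega) (by omega)] at this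
    exact this
  rw [key g hg, key g' hg']
  exact h _ (by omega)

open Classical in
noncomputable def U1 (L : ℕ → Finset ℕ) (K : ℕ) (q : ℕ → ℕ) (n : ℕ) : Finset (ℕ → ℕ) :=
  (E L K q (n - 1)).filter (fun g => g (n - 1) = g (n - 2))

open Classical in
noncomputable def U2 (L : ℕ → Finset ℕ) (K : ℕ) (q : ℕ → ℕ) (n : ℕ) : Finset (ℕ → ℕ) :=
  (E L K q (n - 1)).filter (fun g => g (n - 1) = g (n - 3) ∧ g (n - 2) = g (n - 4))

open Classical in
noncomputable def U3 (L : ℕ → Finset ℕ) (K : ℕ) (q : ℕ → ℕ) (n : ℕ) : Finset (ℕ → ℕ) :=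
  (E L K q (n - 1)).filter (fun g => g (n - 1) = g (n - 3) ∧ g (n - 2) = q 0)

open Classical in
noncomputable def U4 (L : ℕ → Finset ℕ) (K : ℕ) (q : ℕ → ℕ) (n : ℕ) : Finset (ℕ → ℕ) :=
  (E L K q (n - 1)).filter (fun g => g (n - 1) = q 1 ∧ g (n - 2) = q 0)

open Classical in
noncomputable def Yc (L : ℕ → Finset ℕ) (K : ℕ) (q : ℕ → ℕ) (n : ℕ) : Finset (ℕ → ℕ) :=
  (W L K q (n - 1)).filter (fun f => f (n - 2) = q 0)

theorem mem_U1 {n : ℕ} {g : ℕ → ℕ} : g ∈ U1 L K q n ↔
    g ∈ E L K q (n - 1) ∧ g (n - 1) = g (n - 2) := by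
  simp only [U1, mem_filter]

theorem mem_U2 {n : ℕ} {g : ℕ → ℕ} : g ∈ U2 L K q n ↔
    g ∈ E L K q (n - 1) ∧ g (n - 1) = g (n - 3) ∧ g (n - 2) = g (n - 4) := by
  simp only [U2, mem_filter]

theorem mem_U3 {n : ℕ} {g : ℕ → ℕ} : g ∈ U3 L K q n ↔
    g ∈ E L K q (n - 1) ∧ g (n - 1) = g (n - 3) ∧ g (n - 2) = q 0 := by
  simp only [U3, mem_filter]

theorem mem_U4 {n : ℕ} {g : ℕ → ℕ} : g ∈ U4 L K q n ↔
    g ∈ E L K q (n - 1) ∧ g (n - 1) = q 1 ∧ g (n - 2) = q 0 := by
  simp only [U4, mem_filter]

theorem mem_Yc {n : ℕ} {f : ℕ → ℕ} : f ∈ Yc L K q n ↔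
    f ∈ W L K q (n - 1) ∧ f (n - 2) = q 0 := by
  simp only [Yc, mem_filter]

theorem card_U1 {n : ℕ} (hn : 5 ≤ n) (hy : q 0 ∉ L (n - 1)) :
    (U1 L K q n).card + (Yc L K q n).card ≤ (W L K q (n - 1)).card := by
  classical
  have h1 : (U1 L K q n).card ≤
      ((W L K q (n - 1)).filter (fun f => ¬ f (n - 2) = q 0)).card := by
    apply card_le_card_of_injOn (tr (n - 1))
    · intro g hg
      rw [mem_coe, mem_U1, mem_E] at hg
      rw [mem_coe, mem_filter, mem_W]
      refine ⟨hg.1.1, ?_⟩
      rw [tr_lt (by omega)]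
      intro h
      rw [← hg.2] at h
      rw [← h] at hy
      exact hy hg.1.2.1
    · intro g hg g' hg' h
      rw [mem_coe, mem_U1, mem_E] at hg hg'
      funext k
      rcases Nat.lt_trichotomy k (n - 1) with hk | hk | hk
      · exact tr_eq_iff h hk
      · subst hk
        rw [hg.2, hg'.2]
        exact tr_eq_iff h (by omega)
      · rw [hg.1.2.2 k hk, hg'.1.2.2 k hk]
  have h2 := card_filter_add_card_filter_not (s := W L K q (n - 1)) (fun f => f (n - 2) = q 0)
  have h3 : (Yc L K q n).card = ((W L K q (n - 1)).filter (fun f => f (n - 2) = q 0)).card := by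
    unfold Yc
    congr
  omega

theorem card_U2 {n : ℕ} (hn : 5 ≤ n) :
    (U2 L K q n).card ≤ (TA L K q (n - 1)).card := by
  classical
  apply card_le_card_of_injOn (tr (n - 1))
  · intro g hg
    rw [mem_coe, mem_U2, mem_E] at hg
    rw [mem_coe, TA, mem_filter, mem_W]
    refine ⟨hg.1.1, ?_⟩
    have e1 : n - 1 - 1 = n - 2 := by omega
    have e2 : n - 1 - 3 = n - 4 := by omega
    rw [e1, e2, tr_lt (by omega), tr_lt (by omega)]
    exact hg.2.2
  · intro g hg g' hg' h
    rw [mem_coe, mem_U2, mem_E] at hg hg'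
    funext k
    rcases Nat.lt_trichotomy k (n - 1) with hk | hk | hk
    · exact tr_eq_iff h hk
    · subst hk
      rw [hg.2.1, hg'.2.1]
      exact tr_eq_iff h (by omega)
    · rw [hg.1.2.2 k hk, hg'.1.2.2 k hk]

theorem card_U3 {n : ℕ} (hn : 5 ≤ n) :
    (U3 L K q n).card ≤ (Yc L K q n).card := by
  classical
  apply card_le_card_of_injOn (tr (n - 1))
  · intro g hg
    rw [mem_coe, mem_U3, mem_E] at hg
    rw [mem_coe, mem_Yc, mem_W]
    refine ⟨hg.1.1, ?_⟩
    rw [tr_lt (by omega)]
    exact hg.2.2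
  · intro g hg g' hg' h
    rw [mem_coe, mem_U3, mem_E] at hg hg'
    funext k
    rcases Nat.lt_trichotomy k (n - 1) with hk | hk | hk
    · exact tr_eq_iff h hk
    · subst hk
      rw [hg.2.1, hg'.2.1]
      exact tr_eq_iff h (by omega)
    · rw [hg.1.2.2 k hk, hg'.1.2.2 k hk]

theorem card_U4 {n : ℕ} (hn : 5 ≤ n) :
    (U4 L K q n).card ≤ (Yc L K q n).card := by
  classical
  apply card_le_card_of_injOn (tr (n - 1))
  · intro g hg
    rw [mem_coe, mem_U4, mem_E] at hg
    rw [mem_coe, mem_Yc, mem_W]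
    refine ⟨hg.1.1, ?_⟩
    rw [tr_lt (by omega)]
    exact hg.2.2
  · intro g hg g' hg' h
    rw [mem_coe, mem_U4, mem_E] at hg hg'
    funext k
    rcases Nat.lt_trichotomy k (n - 1) with hk | hk | hk
    · exact tr_eq_iff h hk
    · subst hk
      rw [hg.2.1, hg'.2.1]
    · rw [hg.1.2.2 k hk, hg'.1.2.2 k hk]

theorem card_Yc {n : ℕ} (hn : 5 ≤ n) (hK : K ≤ n - 2) :
    (Yc L K q n).card ≤ (W L K q (n - 2)).card := by
  classical
  apply card_le_card_of_injOn (tr (n - 2))
  · intro g hg
    rw [mem_coe, mem_Yc, mem_W] at hg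
    rw [mem_coe, mem_W]
    exact hg.1.tr hK (by omega)
  · intro g hg g' hg' h
    rw [mem_coe, mem_Yc, mem_W] at hg hg'
    funext k
    rcases Nat.lt_trichotomy k (n - 2) with hk | hk | hk
    · exact tr_eq_iff h hk
    · subst hk
      rw [hg.2, hg'.2]
    · rw [hg.1.zero k (by omega), hg'.1.zero k (by omega)]

open Classical in
theorem cover2 (B : Block L K q) {n : ℕ} (P : Par n K) (hy : q 0 ∉ L (n - 1))
    (hbad : ∀ g ∈ E L K q (n - 1), ∃ s < n, ∃ m, 1 ≤ m ∧ 2 * m ≤ n ∧ Cyc n g s m) :
    E L K q (n - 1) ⊆ U1 L K q n ∪ U2 L K q n ∪ U3 L K q n ∪ U4 L K q n ∪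
      (Icc 3 (n / 2)).biUnion (fun m => (range (m + 1)).biUnion (fun b => U L K q n m b)) ∪
      (Icc K (n / 2)).biUnion (fun m => (Icc 1 4).biUnion (fun l => U L K q n m (m + l))) := by
  have hn5 : 5 ≤ n := by unfold Par at P; omega
  have hKn : K < n := by unfold Par at P; omega
  have K3 := B.K3
  intro g hg
  by_contra hcon
  simp only [mem_union, not_or] at hcon
  obtain ⟨⟨⟨⟨⟨c1, c2⟩, c3⟩, c4⟩, c5⟩, c6⟩ := hcon
  obtain ⟨s, hs, m, hm1, hm2, hc⟩ := hbad g hg
  have hr := cyc_range (by omega) hg hm1 hc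
  have hmem : g (n - 1) ∈ L (n - 1) := (mem_E.mp hg).2.1
  have hq0 : g 0 = q 0 := pre_E hKn hg 0 (by omega) (by omega)
  have hne : g (n - 1) ≠ g 0 := by
    intro h
    rw [hq0] at h
    rw [h] at hmem
    exact hy hmem
  obtain ⟨b, hb⟩ : ∃ b, s = n + b - 2 * m ∧ b < 2 * m := ⟨s + 2 * m - n, by omega, by omega⟩
  obtain ⟨hsb, hb2⟩ := hb
  subst hsb
  rcases Nat.lt_or_ge m 3 with hm3 | hm3
  · have hm12 : m = 1 ∨ m = 2 := by omega
    rcases hm12 with rfl | rfl
    · have hb01 : b = 0 ∨ b = 1 := by omega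
      rcases hb01 with rfl | rfl
      · apply c1
        rw [mem_U1]
        refine ⟨hg, ?_⟩
        have := hc 0 (by omega)
        have e1 : n + 0 - 2 * 1 + 0 = n - 2 := by omega
        have e2 : n + 0 - 2 * 1 + 1 + 0 = n - 1 := by omega
        rw [e1, e2, md1 (by omega), md1 (by omega)] at this
        exact this.symm
      · have := hc 0 (by omega)
        have e1 : n + 1 - 2 * 1 + 0 = n - 1 := by omega
        have e2 : n + 1 - 2 * 1 + 1 + 0 = n := by omega
        rw [e1, e2, md1 (by omega), md2 (by omega) (by omega), Nat.sub_self] at this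
        exact hne this
    · have hb03 : b = 0 ∨ b = 1 ∨ b = 2 ∨ b = 3 := by omega
      have t0 := hc 0 (by omega)
      have t1 := hc 1 (by omega)
      rcases hb03 with rfl | rfl | rfl | rfl
      · apply c2
        rw [mem_U2]
        have e1 : n + 0 - 2 * 2 + 0 = n - 4 := by omega
        have e2 : n + 0 - 2 * 2 + 2 + 0 = n - 2 := by omega
        have e3 : n + 0 - 2 * 2 + 1 = n - 3 := by omega
        have e4 : n + 0 - 2 * 2 + 2 + 1 = n - 1 := by omega
        rw [e1, e2, md1 (by omega), md1 (by omega)] at t0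
        rw [e3, e4, md1 (by omega), md1 (by omega)] at t1
        exact ⟨hg, t1.symm, t0.symm⟩
      · apply c3
        rw [mem_U3]
        have e1 : n + 1 - 2 * 2 + 0 = n - 3 := by omega
        have e2 : n + 1 - 2 * 2 + 2 + 0 = n - 1 := by omega
        have e3 : n + 1 - 2 * 2 + 1 = n - 2 := by omega
        have e4 : n + 1 - 2 * 2 + 2 + 1 = n := by omega
        rw [e1, e2, md1 (by omega), md1 (by omega)] at t0
        rw [e3, e4, md1 (by omega), md2 (by omega) (by omega), Nat.sub_self, hq0] at t1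
        exact ⟨hg, t0.symm, t1⟩
      · apply c4
        rw [mem_U4]
        have e1 : n + 2 - 2 * 2 + 0 = n - 2 := by omega
        have e2 : n + 2 - 2 * 2 + 2 + 0 = n := by omega
        have e3 : n + 2 - 2 * 2 + 1 = n - 1 := by omega
        have e4 : n + 2 - 2 * 2 + 2 + 1 = n + 1 := by omega
        have e5 : n + 1 - n = 1 := by omega
        rw [e1, e2, md1 (by omega), md2 (by omega) (by omega), Nat.sub_self, hq0] at t0
        rw [e3, e4, md1 (by omega), md2 (by omega) (by omega), e5,
          pre_E hKn hg 1 (by omega) (by omega)] at t1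
        exact ⟨hg, t1, t0⟩
      · have e1 : n + 3 - 2 * 2 + 1 = n := by omega
        have e2 : n + 3 - 2 * 2 + 2 + 1 = n + 2 := by omega
        have e5 : n + 2 - n = 2 := by omega
        rw [e1, e2, md2 (by omega) (by omega), md2 (by omega) (by omega), Nat.sub_self, e5, hq0,
          pre_E hKn hg 2 (by omega) (by omega)] at t1
        exact B.qy 2 (by omega) (by omega) t1.symm
  · rcases Nat.lt_or_ge m b with hbm | hbm
    · obtain ⟨l, hl⟩ : ∃ l, b = m + l := ⟨b - m, by omega⟩
      subst hl
      obtain ⟨k1, k2, k3, k4⟩ := V_key B P (by omega) hm2 (by omega) (by omega) hg hc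
      apply c6
      rw [mem_biUnion]
      refine ⟨m, mem_Icc.mpr ⟨k3, by omega⟩, ?_⟩
      rw [mem_biUnion]
      exact ⟨l, mem_Icc.mpr ⟨by omega, k4⟩, mem_U.mpr ⟨hg, hc⟩⟩
    · apply c5
      rw [mem_biUnion]
      refine ⟨m, mem_Icc.mpr ⟨hm3, by omega⟩, ?_⟩
      rw [mem_biUnion]
      exact ⟨b, mem_range.mpr (by omega), mem_U.mpr ⟨hg, hc⟩⟩

/-- The main counting theorem: if the list of the last vertex misses a colour of the list of the
first vertex then a nonrepetitive colouring of the cycle exists. -/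
theorem caseII (n : ℕ) (hn : 5 ≤ n) (L : ℕ → Finset ℕ) (hL : ∀ i < n, 4 ≤ (L i).card) (y : ℕ)
    (hy0 : y ∈ L 0) (hyn : y ∉ L (n - 1)) :
    ∃ f : ℕ → ℕ, (∀ i < n, f i ∈ L i) ∧
      ∀ s < n, ∀ m, 1 ≤ m → 2 * m ≤ n → ¬ Cyc n f s m := by
  classical
  obtain ⟨K, P⟩ : ∃ K, Par n K := by
    rcases Nat.lt_or_ge n 16 with h | h
    · exact ⟨n / 2 + 1, Or.inr ⟨hn, h, rfl⟩⟩
    · exact ⟨8, Or.inl ⟨h, rfl⟩⟩
  have hKn : K ≤ n - 2 := by unfold Par at P; omega
  obtain ⟨q, B, hq⟩ := exists_block L K (by unfold Par at P; omega) (by unfold Par at P; omega)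
    (fun k hk => hL k (by omega)) y hy0
  have hy : q 0 ∉ L (n - 1) := by rw [hq]; exact hyn
  by_contra hcon
  push Not at hcon
  have hbad : ∀ g ∈ E L K q (n - 1), ∃ s < n, ∃ m, 1 ≤ m ∧ 2 * m ≤ n ∧ Cyc n g s m := by
    intro g hg
    obtain ⟨s, hs, m, h1, h2, h3⟩ := hcon g (by
      intro i hi
      rcases Nat.lt_or_ge i (n - 1) with hi2 | hi2
      · have := (mem_E.mp hg).1.mem i hi2
        rwa [tr_lt hi2] at this
      · have : i = n - 1 := by omega
        subst this
        exact (mem_E.mp hg).2.1)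
    exact ⟨s, hs, m, h1, h2, h3⟩
  set x : ℕ → ℕ := fun i => (W L K q (K + i)).card with hx
  set a : ℕ → ℕ := fun i => (TA L K q (K + i)).card with ha
  set M := n - 1 - K with hM
  have num := numeric M (by omega) x a (by simpa [hx] using W_K B) (by simpa [ha] using TA_K B)
    (by
      intro i hi
      have := ineq1 B (j := K + i) (by omega)
      simpa [hx, ha, Nat.add_assoc] using this)
    (by
      intro i hi
      have h := ineq2 B (j := K + i) (by omega) (hL _ (by omega))
      have e1 : K + i - K = i := by omega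
      have e2 : K + i + 1 - K = i + 1 := by omega
      rw [e1, e2] at h
      have hs : ∑ m ∈ Icc 3 (i + 1), (W L K q (K + i + 1 - m)).card ≤
          ∑ k ∈ range (i - 1), x k := by
        apply sum_le_of_inj (fun m => i + 1 - m)
        · intro m hm
          rw [mem_Icc] at hm
          rw [mem_range]
          omega
        · intro m hm m' hm' e
          rw [mem_Icc] at hm hm'
          omega
        · intro m hm
          rw [mem_Icc] at hm
          simp only [hx]
          have : K + i + 1 - m = K + (i + 1 - m) := by omega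
          rw [this]
      have hp : (if K + 4 ≤ K + i then (W L K q (K + i - 4)).card else 0) ≤
          (if 4 ≤ i then x (i - 4) else 0) := by
        by_cases h4 : 4 ≤ i
        · rw [if_pos (by omega), if_pos h4]
          simp only [hx]
          have : K + i - 4 = K + (i - 4) := by omega
          rw [this]
        · rw [if_neg (by omega), if_neg h4]
      have hx1 : x (i + 1) = (W L K q (K + i + 1)).card := by simp [hx, Nat.add_assoc]
      have hx0 : x i = (W L K q (K + i)).card := rfl
      have ha0 : a i = (TA L K q (K + i)).card := rfl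
      rw [hx1, hx0, ha0]
      omega)
  -- the bound on the number of extensions
  have hcard := card_E (K := K) (q := q) (hL (n - 1) (by omega))
  have h2 := card_le_card (cover2 B P hy hbad)
  have u1 := card_union_le (U1 L K q n ∪ U2 L K q n ∪ U3 L K q n ∪ U4 L K q n ∪
      (Icc 3 (n / 2)).biUnion (fun m => (range (m + 1)).biUnion (fun b => U L K q n m b)))
      ((Icc K (n / 2)).biUnion (fun m => (Icc 1 4).biUnion (fun l => U L K q n m (m + l))))
  have u2 := card_union_le (U1 L K q n ∪ U2 L K q n ∪ U3 L K q n ∪ U4 L K q n)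
      ((Icc 3 (n / 2)).biUnion (fun m => (range (m + 1)).biUnion (fun b => U L K q n m b)))
  have u3 := card_union_le (U1 L K q n ∪ U2 L K q n ∪ U3 L K q n) (U4 L K q n)
  have u4 := card_union_le (U1 L K q n ∪ U2 L K q n) (U3 L K q n)
  have u5 := card_union_le (U1 L K q n) (U2 L K q n)
  have w1 := card_U1 (K := K) hn hy
  have w2 := card_U2 (L := L) (K := K) (q := q) hn
  have w3 := card_U3 (L := L) (K := K) (q := q) hn
  have w4 := card_U4 (L := L) (K := K) (q := q) hn
  have w5 := card_Yc (L := L) (q := q) hn hKn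
  have w6 : ((Icc 3 (n / 2)).biUnion
      (fun m => (range (m + 1)).biUnion (fun b => U L K q n m b))).card ≤
      ∑ k ∈ range (M - 1), (M + 2 - k) * x k := by
    refine le_trans card_biUnion_le ?_
    have hstep : ∀ m ∈ Icc 3 (n / 2), ((range (m + 1)).biUnion (fun b => U L K q n m b)).card ≤
        if K ≤ n - m then (m + 1) * (W L K q (n - m)).card else 0 := by
      intro m hm
      rw [mem_Icc] at hm
      refine le_trans card_biUnion_le ?_
      have : ∀ b ∈ range (m + 1), (U L K q n m b).card ≤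
          if K ≤ n - m then (W L K q (n - m)).card else 0 := by
        intro b hb
        rw [mem_range] at hb
        exact card_U B P hm.1 (by omega) (by omega)
      refine le_trans (sum_le_sum this) ?_
      rw [sum_const, card_range, smul_eq_mul]
      split_ifs <;> simp
    refine le_trans (sum_le_sum hstep) ?_
    rw [← sum_filter]
    apply sum_le_of_inj (fun m => n - m - K)
    · intro m hm
      rw [mem_filter, mem_Icc] at hm
      rw [mem_range]
      omega
    · intro m hm m' hm' e
      rw [mem_filter, mem_Icc] at hm hm'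
      omega
    · intro m hm
      rw [mem_filter, mem_Icc] at hm
      simp only [hx]
      have e1 : K + (n - m - K) = n - m := by omega
      have e2 : M + 2 - (n - m - K) = m + 1 := by omega
      rw [e1, e2]
  have w7 : ((Icc K (n / 2)).biUnion
      (fun m => (Icc 1 4).biUnion (fun l => U L K q n m (m + l)))).card ≤
      (if 7 ≤ M then ∑ l ∈ Icc 1 4, ∑ k ∈ range (M - 6 + l), x k else 0) := by
    rcases Nat.lt_or_ge n 16 with h16 | h16
    · have : Icc K (n / 2) = ∅ := by
        rw [Icc_eq_empty_iff]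
        unfold Par at P
        omega
      rw [this]
      simp
    · have hK8 : K = 8 := by unfold Par at P; omega
      rw [if_pos (by omega)]
      refine le_trans card_biUnion_le ?_
      have hstep : ∀ m ∈ Icc K (n / 2), ((Icc 1 4).biUnion (fun l => U L K q n m (m + l))).card ≤
          ∑ l ∈ Icc 1 4, (W L K q (n - (m - l))).card := by
        intro m hm
        rw [mem_Icc] at hm
        refine le_trans card_biUnion_le ?_
        apply sum_le_sum
        intro l hl
        rw [mem_Icc] at hl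
        exact card_V B P hm.1 (by omega) hl.1 (by omega)
      refine le_trans (sum_le_sum hstep) ?_
      rw [sum_comm]
      apply sum_le_sum
      intro l hl
      rw [mem_Icc] at hl
      apply sum_le_of_inj (fun m => n - (m - l) - K)
      · intro m hm
        rw [mem_Icc] at hm
        rw [mem_range]
        omega
      · intro m hm m' hm' e
        rw [mem_Icc] at hm hm'
        omega
      · intro m hm
        rw [mem_Icc] at hm
        simp only [hx]
        have e1 : K + (n - (m - l) - K) = n - (m - l) := by omega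
        rw [e1]
  have ex : (W L K q (n - 1)).card = x M := by
    simp only [hx]
    have : K + M = n - 1 := by omega
    rw [this]
  have ea : (TA L K q (n - 1)).card = a M := by
    simp only [ha]
    have : K + M = n - 1 := by omega
    rw [this]
  have ex1 : (W L K q (n - 2)).card = x (M - 1) := by
    simp only [hx]
    have : K + (M - 1) = n - 2 := by omega
    rw [this]
  omega

end Pool.Agent.Work.MP_e23409_co
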