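import Mathlib

set_option autoImplicit false

namespace Pool.Agent.Work.MP_e23409_co

/-- The Thue-Morse sequence. -/
def tm : ℕ → Bool
  | 0 => false
  | n + 1 => xor (tm ((n + 1) / 2)) (decide ((n + 1) % 2 = 1))
decreasing_by omega

theorem tm_even (n : ℕ) : tm (2 * n) = tm n := by
  rcases n with _ | n
  · rfl
  · have h : 2 * (n + 1) = (2 * n + 1) + 1 := by ring
    rw [h, tm]
    have h1 : (2 * n + 1 + 1) / 2 = n + 1 := by omega
    have h2 : ¬ (2 * n + 1 + 1) % 2 = 1 := by omega
    rw [h1]
    simp [h2]

theorem tm_odd (n : ℕ) : tm (2 * n + 1) = !(tm n) := by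
  rw [tm]
  have h1 : (2 * n + 1) / 2 = n := by omega
  have h2 : (2 * n + 1) % 2 = 1 := by omega
  rw [h1]
  simp [h2]

/-- The Thue-Morse sequence is overlap-free. -/
theorem tm_overlap_free (m : ℕ) : 1 ≤ m → ∀ s, ¬ ∀ k ≤ m, tm (s + k) = tm (s + m + k) := by
  induction m using Nat.strong_induction_on with
  | _ m ih =>
    intro hm s h
    rcases Nat.even_or_odd m with ⟨r, hr⟩ | ⟨r, hr⟩
    · -- even
      have hr1 : 1 ≤ r := by omega
      rcases Nat.even_or_odd s with ⟨u, hu⟩ | ⟨u, hu⟩
      · apply ih r (by omega) hr1 u
        intro k hk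
        have := h (2 * k) (by omega)
        have e1 : s + 2 * k = 2 * (u + k) := by omega
        have e2 : s + m + 2 * k = 2 * (u + r + k) := by omega
        rw [e1, e2, tm_even, tm_even] at this
        exact this
      · apply ih r (by omega) hr1 u
        intro k hk
        have := h (2 * k) (by omega)
        have e1 : s + 2 * k = 2 * (u + k) + 1 := by omega
        have e2 : s + m + 2 * k = 2 * (u + r + k) + 1 := by omega
        rw [e1, e2, tm_odd, tm_odd] at this
        simpa using this
    · -- odd
      have alt : ∀ k < m, tm (s + k + 1) = !(tm (s + k)) := by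
        intro k hk
        rcases Nat.even_or_odd (s + k) with ⟨u, hu⟩ | ⟨u, hu⟩
        · have e1 : s + k = 2 * u := by omega
          rw [e1, tm_odd, tm_even]
        · -- s + k odd, shift by m
          have a1 := h k (by omega)
          have a2 := h (k + 1) (by omega)
          have e1 : s + m + k = 2 * (u + r + 1) := by omega
          have e2 : s + m + (k + 1) = 2 * (u + r + 1) + 1 := by omega
          have e3 : s + (k + 1) = s + k + 1 := by omega
          rw [e1, tm_even] at a1
          rw [e2, tm_odd, e3] at a2
          rw [a1, a2]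
      have flip : ∀ k ≤ m, tm (s + k) = xor (tm s) (decide (k % 2 = 1)) := by
        intro k
        induction k with
        | zero => intro _; simp
        | succ k ihk =>
          intro hk
          have h1 := alt k (by omega)
          have h2 := ihk (by omega)
          rw [← Nat.add_assoc, h1, h2]
          rcases Nat.even_or_odd k with ⟨u, hu⟩ | ⟨u, hu⟩
          · have e1 : ¬ k % 2 = 1 := by omega
            have e2 : (k + 1) % 2 = 1 := by omega
            simp [e1, e2]
          · have e1 : k % 2 = 1 := by omega
            have e2 : ¬ (k + 1) % 2 = 1 := by omega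
            simp [e1, e2]
      have h0 := h 0 (by omega)
      have h1 := flip m le_rfl
      have e : m % 2 = 1 := by omega
      simp only [Nat.add_zero] at h0
      rw [← h0] at h1
      simp [e] at h1

/-- A ternary square-free sequence. -/
def tern (n : ℕ) : Fin 3 :=
  if tm n = tm (n + 1) then 0 else if tm n = false then 1 else 2

theorem tern_step (i j : ℕ) (h : tern i = tern j) (h0 : tm i = tm j) :
    tm (i + 1) = tm (j + 1) := by
  unfold tern at h
  rcases hi : tm i with _ | _ <;> rcases hi1 : tm (i + 1) with _ | _ <;>
    rcases hj : tm j with _ | _ <;> rcases hj1 : tm (j + 1) with _ | _ <;>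
    simp_all

/-- the increment encoded by a letter -/
def inc (c : Fin 3) : ℤ := if c = 0 then 0 else if c = 1 then 1 else -1

/-- integer value of a bit -/
def bv (b : Bool) : ℤ := if b then 1 else 0

theorem inc_tern (i : ℕ) : inc (tern i) = bv (tm (i + 1)) - bv (tm i) := by
  unfold tern inc bv
  rcases tm i with _ | _ <;> rcases tm (i + 1) with _ | _ <;> simp

theorem sum_inc (s l : ℕ) :
    ∑ k ∈ Finset.range l, inc (tern (s + k)) = bv (tm (s + l)) - bv (tm s) := by
  induction l with
  | zero => simp
  | succ l ih =>
    rw [Finset.sum_range_succ, ih, inc_tern]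
    have : s + l + 1 = s + (l + 1) := by ring
    rw [this]
    ring

theorem bv_inj {a b : Bool} (h : bv a = bv b) : a = b := by
  unfold bv at h
  rcases a with _ | _ <;> rcases b with _ | _ <;> simp_all

theorem bv_range (a : Bool) : bv a = 0 ∨ bv a = 1 := by
  unfold bv
  rcases a with _ | _ <;> simp

/-- `tern` is square-free. -/
theorem tern_square_free (m : ℕ) (hm : 1 ≤ m) (s : ℕ) :
    ¬ ∀ k < m, tern (s + k) = tern (s + m + k) := by
  intro h
  have e1 := sum_inc s m
  have e2 := sum_inc (s + m) m
  have e3 : ∑ k ∈ Finset.range m, inc (tern (s + k))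
      = ∑ k ∈ Finset.range m, inc (tern (s + m + k)) := by
    apply Finset.sum_congr rfl
    intro k hk
    rw [h k (Finset.mem_range.mp hk)]
  have e4 : bv (tm s) = bv (tm (s + m)) := by
    rcases bv_range (tm s) with a | a <;> rcases bv_range (tm (s + m)) with b | b <;>
      rcases bv_range (tm (s + m + m)) with c | c <;> rw [a, b] <;> rw [a, b] at e1 <;>
      rw [b, c] at e2 <;> omega
  have e5 := bv_inj e4
  apply tm_overlap_free m hm s
  intro k
  induction k with
  | zero => intro _; simpa using e5
  | succ k ih =>
    intro hk
    have := tern_step (s + k) (s + m + k) (h k (by omega)) (ih (by omega))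
    simpa [Nat.add_assoc] using this

end Pool.Agent.Work.MP_e23409_co
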