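import Mathlib
import Pool.Agent.Work.MP_e23409_co.Thue
import Pool.Agent.Work.MP_e23409_co.Close

set_option autoImplicit false

namespace Pool.Agent.Work.MP_e23409_co

open Finset

/-- An `n`-periodic colouring of the naturals without squares of total length at most `n`. -/
def PerFree (n : ℕ) (h : ℕ → ℕ) : Prop :=
  ∀ s m, 1 ≤ m → 2 * m ≤ n → ¬ ∀ k < m, h (s + k) = h (s + m + k)

theorem perFree_of_cyc {n : ℕ} (hn : 1 ≤ n) {f : ℕ → ℕ}
    (hf : ∀ s < n, ∀ m, 1 ≤ m → 2 * m ≤ n → ¬ Cyc n f s m) (p : ℕ) :
    PerFree n (fun t => f ((t + p) % n)) := by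
  intro s m hm hmn h
  apply hf ((s + p) % n) (Nat.mod_lt _ (by omega)) m hm hmn
  intro k hk
  have := h k hk
  simp only at this
  have e1 : ((s + p) % n + k) % n = (s + k + p) % n := by
    rw [Nat.mod_add_mod]
    congr 1
    ring
  have e2 : ((s + p) % n + m + k) % n = (s + m + k + p) % n := by
    rw [Nat.add_assoc, Nat.mod_add_mod]
    congr 1
    ring
  rw [e1, e2]
  exact this

/-- Small cycles: distinct colours. -/
theorem small (n : ℕ) (h3 : 3 ≤ n) (h4 : n ≤ 4) (L : ℕ → Finset ℕ)
    (hL : ∀ i, 4 ≤ (L i).card) :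
    ∃ f : ℕ → ℕ, (∀ i < n, f i ∈ L i) ∧
      ∀ s < n, ∀ m, 1 ≤ m → 2 * m ≤ n → ¬ Cyc n f s m := by
  obtain ⟨c0, m0, -, -, -⟩ := pick (L 0) (hL 0) 0 0 0
  obtain ⟨c1, m1, n1, -, -⟩ := pick (L 1) (hL 1) c0 c0 c0
  obtain ⟨c2, m2, n2, n2', -⟩ := pick (L 2) (hL 2) c0 c1 c1
  obtain ⟨c3, m3, n3, n3', n3''⟩ := pick (L 3) (hL 3) c0 c1 c2
  set f : ℕ → ℕ := fun i => if i = 0 then c0 else if i = 1 then c1 else if i = 2 then c2 else c3
    with hf
  have f0 : f 0 = c0 := rfl
  have f1 : f 1 = c1 := rfl
  have f2 : f 2 = c2 := rfl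
  have f3 : f 3 = c3 := rfl
  refine ⟨f, ?_, ?_⟩
  · intro i hi
    have : i ≤ 3 := by omega
    interval_cases i
    · rw [f0]; exact m0
    · rw [f1]; exact m1
    · rw [f2]; exact m2
    · rw [f3]; exact m3
  · intro s hs m hm hmn hc
    have inj : ∀ i j, i < j → j ≤ 3 → f i ≠ f j := by
      intro i j hij hj
      have : i ≤ 2 := by omega
      interval_cases j <;> interval_cases i
      · rw [f0, f1]; exact n1.symm
      · rw [f0, f2]; exact n2.symm
      · rw [f1, f2]; exact n2'.symm
      · rw [f0, f3]; exact n3.symm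
      · rw [f1, f3]; exact n3'.symm
      · rw [f2, f3]; exact n3''.symm
    have h0 := hc 0 (by omega)
    rw [Nat.add_zero, Nat.add_zero, md1 hs] at h0
    rcases Nat.lt_or_ge (s + m) n with h | h
    · rw [md1 h] at h0
      exact inj s (s + m) (by omega) (by omega) h0
    · rw [md2 h (by omega)] at h0
      exact inj (s + m - n) s (by omega) (by omega) h0.symm

/-- All lists equal: a ternary square-free word followed by a fourth colour. -/
theorem caseI (n : ℕ) (h3 : 3 ≤ n) (A : Finset ℕ) (hA : 4 ≤ A.card) :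
    ∃ f : ℕ → ℕ, (∀ i < n, f i ∈ A) ∧
      ∀ s < n, ∀ m, 1 ≤ m → 2 * m ≤ n → ¬ Cyc n f s m := by
  obtain ⟨c0, m0, -, -, -⟩ := pick A hA 0 0 0
  obtain ⟨c1, m1, n1, -, -⟩ := pick A hA c0 c0 c0
  obtain ⟨c2, m2, n2, n2', -⟩ := pick A hA c0 c1 c1
  obtain ⟨c3, m3, n3, n3', n3''⟩ := pick A hA c0 c1 c2
  set e : Fin 3 → ℕ := fun i => if i = 0 then c0 else if i = 1 then c1 else c2 with he
  have e0 : e 0 = c0 := rfl
  have e1 : e 1 = c1 := rfl
  have e2 : e 2 = c2 := rfl
  have einj : ∀ i j, e i = e j → i = j := by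
    intro i j h
    fin_cases i <;> fin_cases j <;> simp only [he] at h <;> simp_all
  have ene : ∀ i, e i ≠ c3 := by
    intro i
    fin_cases i
    · exact fun h => n3 h.symm
    · exact fun h => n3' h.symm
    · exact fun h => n3'' h.symm
  have emem : ∀ i, e i ∈ A := by
    intro i
    fin_cases i
    · exact m0
    · exact m1
    · exact m2
  refine ⟨fun i => if i = n - 1 then c3 else e (tern i), ?_, ?_⟩
  · intro i _
    simp only
    split_ifs
    · exact m3
    · exact emem _
  · intro s hs m hm hmn hc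
    unfold Cyc at hc
    simp only at hc
    rcases Nat.lt_or_ge (s + 2 * m) n with h | h
    · -- window avoids the last vertex
      apply tern_square_free m hm s
      intro k hk
      have := hc k hk
      rw [md1 (by omega), md1 (by omega), if_neg (by omega), if_neg (by omega)] at this
      exact einj _ _ this
    · -- window contains the last vertex
      rcases Nat.lt_or_ge (n - 1) (s + m) with h' | h'
      · have := hc (n - 1 - s) (by omega)
        have a1 : s + (n - 1 - s) = n - 1 := by omega
        have a2 : s + m + (n - 1 - s) = n + (m - 1) := by omega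
        rw [a1, a2, md1 (by omega), md2 (by omega) (by omega), if_pos rfl, if_neg (by omega)]
          at this
        exact ene _ this.symm
      · have := hc (n - 1 - s - m) (by omega)
        have a1 : s + (n - 1 - s - m) = n - 1 - m := by omega
        have a2 : s + m + (n - 1 - s - m) = n - 1 := by omega
        rw [a1, a2, md1 (by omega), md1 (by omega), if_pos rfl, if_neg (by omega)] at this
        exact ene _ this

/-- The main theorem in periodic form. -/
theorem main_periodic (n : ℕ) (h3 : 3 ≤ n) (L : Fin n → Finset ℕ) (hL : ∀ v, 4 ≤ (L v).card) :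
    ∃ c : Fin n → ℕ, (∀ v, c v ∈ L v) ∧
      PerFree n (fun t => c ⟨t % n, Nat.mod_lt _ (by omega)⟩) := by
  have hn : 0 < n := by omega
  -- shrink the lists
  have hex : ∀ v, ∃ A ⊆ L v, A.card = 4 := fun v => Finset.exists_subset_card_eq (hL v)
  choose A hAL hA4 using hex
  set N : ℕ → Finset ℕ := fun t => A ⟨t % n, Nat.mod_lt _ hn⟩ with hN
  have hN4 : ∀ t, (N t).card = 4 := fun t => hA4 _
  have hper : ∀ t, N (t % n) = N t := by
    intro t
    simp only [hN, Nat.mod_mod]
  -- it suffices to colour a rotated version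
  have suff : ∀ p < n, (∃ f : ℕ → ℕ, (∀ i < n, f i ∈ N (p + i)) ∧
      ∀ s < n, ∀ m, 1 ≤ m → 2 * m ≤ n → ¬ Cyc n f s m) →
      ∃ c : Fin n → ℕ, (∀ v, c v ∈ L v) ∧
      PerFree n (fun t => c ⟨t % n, Nat.mod_lt _ (by omega)⟩) := by
    rintro p hp ⟨f, hf1, hf2⟩
    refine ⟨fun v => f ((v.val + (n - p)) % n), ?_, ?_⟩
    · intro v
      apply hAL v
      have h1 := hf1 ((v.val + (n - p)) % n) (Nat.mod_lt _ hn)
      have h2 : N (p + (v.val + (n - p)) % n) = A v := by
        rw [← hper]
        have : (p + (v.val + (n - p)) % n) % n = v.val := by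
          rw [Nat.add_mod_mod]
          have : p + (v.val + (n - p)) = v.val + n := by omega
          rw [this, Nat.add_mod_right, Nat.mod_eq_of_lt v.2]
        rw [this]
        simp only [hN]
        congr 1
        ext
        simp [Nat.mod_eq_of_lt v.2]
      rwa [h2] at h1
    · have := perFree_of_cyc (by omega) hf2 (n - p)
      intro s m hm hmn h
      apply this s m hm hmn
      intro k hk
      have := h k hk
      simp only [Nat.mod_add_mod] at this
      exact this
  rcases Nat.lt_or_ge 4 n with h4 | h4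
  · by_cases hall : ∀ t, N t = N (t + 1)
    · have hconst : ∀ t, N t = N 0 := by
        intro t
        induction t with
        | zero => rfl
        | succ t ih => rw [← hall t, ih]
      apply suff 0 hn
      obtain ⟨f, hf1, hf2⟩ := caseI n h3 (N 0) (by rw [hN4])
      exact ⟨f, fun i hi => by rw [hconst]; exact hf1 i hi, hf2⟩
    · push Not at hall
      obtain ⟨t, ht⟩ := hall
      have hy : ∃ y ∈ N (t + 1), y ∉ N t := by
        by_contra hcon
        push Not at hcon
        apply ht
        symm
        apply Finset.eq_of_subset_of_card_le hcon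
        rw [hN4, hN4]
      obtain ⟨y, hy1, hy2⟩ := hy
      apply suff ((t + 1) % n) (Nat.mod_lt _ hn)
      have hshift : ∀ i, N ((t + 1) % n + i) = N (t + 1 + i) := by
        intro i
        rw [← hper, Nat.mod_add_mod, hper]
      apply caseII n (by omega) (fun i => N ((t + 1) % n + i))
      · intro i _
        rw [hN4]
      · rw [hshift, Nat.add_zero]
        exact hy1
      · rw [hshift]
        have : t + 1 + (n - 1) = t + n := by omega
        rw [this, ← hper, Nat.add_mod_right, hper]
        exact hy2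
  · apply suff 0 hn
    obtain ⟨f, hf1, hf2⟩ := small n h3 h4 N (fun i => by rw [hN4])
    exact ⟨f, fun i hi => by rw [Nat.zero_add]; exact hf1 i hi, hf2⟩

end Pool.Agent.Work.MP_e23409_co
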