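import Mathlib
import Pool.Agent.Work.MP_e23409_co.Final

set_option autoImplicit false

namespace Pool.Agent.Work.MP_e23409_co

open SimpleGraph

theorem sub_val_one {n : ℕ} (hn : 3 ≤ n) {u v : Fin n} (h : (v - u).val = 1) :
    v.val = (u.val + 1) % n := by
  rw [Fin.sub_def] at h
  simp only at h
  have hu := u.2
  have hv := v.2
  rcases Nat.lt_or_ge (n - u.val + v.val) n with h1 | h1
  · rw [Nat.mod_eq_of_lt h1] at h
    have e1 : u.val + 1 = n := by omega
    have e2 : v.val = 0 := by omega
    rw [e1, e2, Nat.mod_self]
  · rw [Nat.mod_eq_sub_mod h1, Nat.mod_eq_of_lt (by omega)] at h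
    rw [Nat.mod_eq_of_lt (by omega)]
    omega

/-- In a path of the cycle graph all steps have the same direction. -/
theorem path_dir {n : ℕ} (hn : 3 ≤ n) (l : List (Fin n))
    (hch : l.IsChain (cycleGraph n).Adj) (hnd : l.Nodup) :
    (∀ i, (h : i + 1 < l.length) → (l[i + 1]).val = ((l[i]).val + 1) % n) ∨
    (∀ i, (h : i + 1 < l.length) → (l[i]).val = ((l[i + 1]).val + 1) % n) := by
  have hadj : ∀ i, (h : i + 1 < l.length) → (l[i + 1]).val = ((l[i]).val + 1) % n ∨
      (l[i]).val = ((l[i + 1]).val + 1) % n := by
    intro i h
    have := List.isChain_iff_getElem.mp hch i h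
    rw [cycleGraph_adj'] at this
    rcases this with h1 | h1
    · right
      exact sub_val_one hn h1
    · left
      exact sub_val_one hn h1
  have hne : ∀ i, (h : i + 2 < l.length) → (l[i + 2]).val ≠ (l[i]).val := by
    intro i h heq
    have := (hnd.getElem_inj_iff (hi := by omega) (hj := by omega)).mp (Fin.ext heq)
    omega
  rcases Nat.lt_or_ge 1 l.length with hl | hl
  · rcases hadj 0 (by omega) with h0 | h0
    · left
      intro i
      induction i with
      | zero => intro h; exact h0
      | succ i ih =>
        intro h
        have ih' := ih (by omega)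
        rcases hadj (i + 1) h with h1 | h1
        · exact h1
        · exfalso
          apply hne i (by omega)
          have a := (l[i]).2
          have b := (l[i + 2]).2
          have c := (l[i + 1]).2
          simp only [show i + 1 + 1 = i + 2 by rfl] at h1
          rw [ih'] at h1
          rcases Nat.lt_or_ge ((l[i]).val + 1) n with p | p <;>
            rcases Nat.lt_or_ge ((l[i + 2]).val + 1) n with p' | p'
          · rw [Nat.mod_eq_of_lt p, Nat.mod_eq_of_lt p'] at h1; omega
          · have : (l[i + 2]).val + 1 = n := by omega
            rw [Nat.mod_eq_of_lt p, this, Nat.mod_self] at h1; omega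
          · have : (l[i]).val + 1 = n := by omega
            rw [Nat.mod_eq_of_lt p', this, Nat.mod_self] at h1; omega
          · omega
    · right
      intro i
      induction i with
      | zero => intro h; exact h0
      | succ i ih =>
        intro h
        have ih' := ih (by omega)
        rcases hadj (i + 1) h with h1 | h1
        · exfalso
          apply hne i (by omega)
          simp only [show i + 1 + 1 = i + 2 by rfl] at h1
          rw [h1, ← ih']
        · exact h1
  · left
    intro i h
    omega

theorem cycle_choosable (n : ℕ) (hn : 3 ≤ n) (L : Fin n → Finset ℕ) (hL : ∀ v, 4 ≤ (L v).card) :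
    ∃ c : Fin n → ℕ, (∀ v, c v ∈ L v) ∧
      ∀ (u v : Fin n) (p : (SimpleGraph.cycleGraph n).Walk u v),
        p.IsPath → Even p.support.length →
          (p.support.map c).take (p.support.length / 2) ≠
            (p.support.map c).drop (p.support.length / 2) := by
  obtain ⟨c, hc1, hc2⟩ := main_periodic n hn L hL
  refine ⟨c, hc1, ?_⟩
  intro u v p hp heven heq
  have hnd : p.support.Nodup := hp.support_nodup
  have hch := p.isChain_adj_support
  have hlen : p.support.length ≤ n := by
    have := List.Nodup.length_le_card hnd
    simpa using this
  have hpos : 0 < p.support.length := by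
    rw [SimpleGraph.Walk.length_support]; omega
  generalize p.support = l at *
  obtain ⟨m, hm⟩ := heven
  have hm2 : l.length / 2 = m := by omega
  rw [hm2] at heq
  -- pointwise equalities
  have hpt : ∀ k, (h : k < m) → c (l[k]'(by omega)) = c (l[m + k]'(by omega)) := by
    intro k hk
    have h1 : ((l.map c).take m)[k]? = ((l.map c).drop m)[k]? := by rw [heq]
    rw [List.getElem?_take_of_lt hk, List.getElem?_drop] at h1
    rw [List.getElem?_eq_getElem (by simp; omega), List.getElem?_eq_getElem (by simp; omega)] at h1
    simpa using h1
  rcases path_dir hn l hch hnd with hd | hd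
  · -- increasing
    have hval : ∀ i, (h : i < l.length) → (l[i]).val = ((l[0]).val + i) % n := by
      intro i
      induction i with
      | zero => intro h; simp [Nat.mod_eq_of_lt (l[0]).2]
      | succ i ih =>
        intro h
        rw [hd i h, ih (by omega), Nat.mod_add_mod, Nat.add_assoc]
    apply hc2 (l[0]).val m (by omega) (by omega)
    intro k hk
    have := hpt k hk
    have e1 : (⟨((l[0]).val + k) % n, Nat.mod_lt _ (by omega)⟩ : Fin n) = l[k]'(by omega) := by
      ext
      rw [hval k (by omega)]
    have e2 : (⟨((l[0]).val + m + k) % n, Nat.mod_lt _ (by omega)⟩ : Fin n)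
        = l[m + k]'(by omega) := by
      ext
      rw [hval (m + k) (by omega), Nat.add_assoc]
    simp only [e1, e2]
    exact this
  · -- decreasing
    have hval : ∀ i, (h : i < l.length) →
        (l[l.length - 1 - i]).val = ((l[l.length - 1]).val + i) % n := by
      intro i
      induction i with
      | zero => intro h; simp [Nat.mod_eq_of_lt (l[l.length - 1]).2]
      | succ i ih =>
        intro h
        have h1 := hd (l.length - 1 - (i + 1)) (by omega)
        have e : l.length - 1 - (i + 1) + 1 = l.length - 1 - i := by omega
        simp only [e] at h1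
        rw [h1, ih (by omega), Nat.mod_add_mod, Nat.add_assoc]
    apply hc2 (l[l.length - 1]).val m (by omega) (by omega)
    intro k hk
    have := hpt (m - 1 - k) (by omega)
    have e1 : (⟨((l[l.length - 1]).val + k) % n, Nat.mod_lt _ (by omega)⟩ : Fin n)
        = l[m + (m - 1 - k)]'(by omega) := by
      ext
      simp only
      rw [← hval k (by omega)]
      have : l.length - 1 - k = m + (m - 1 - k) := by omega
      simp only [this]
    have e2 : (⟨((l[l.length - 1]).val + m + k) % n, Nat.mod_lt _ (by omega)⟩ : Fin n)
        = l[m - 1 - k]'(by omega) := by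
      ext
      simp only
      rw [Nat.add_assoc, ← hval (m + k) (by omega)]
      have : l.length - 1 - (m + k) = m - 1 - k := by omega
      simp only [this]
    simp only [e1, e2]
    exact this.symm

end Pool.Agent.Work.MP_e23409_co
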